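import Pool.Agent.Lib.MP_72e2e6_nt.P3.E.Spec

/-!
MP_72e2e6_nt, theorem T3p, part E, module Aug: vectors with sum zero are differences.
-/

namespace Pool.Agent.MP72P

open scoped Classical

private theorem Aug_range {p : ℕ} [NeZero p] {A : Type} [AddCommGroup A] (v : ZMod p → A) :
    ∑ j ∈ Finset.range p, v (j : ZMod p) = ∑ i, v i := by
  refine Finset.sum_bij' (fun j _ => (j : ZMod p)) (fun i _ => i.val) ?_ ?_ ?_ ?_ ?_
  · intro a _
    exact Finset.mem_univ _
  · intro a _
    exact Finset.mem_range.2 (ZMod.val_lt a)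
  · intro a ha
    exact ZMod.val_natCast_of_lt (Finset.mem_range.1 ha)
  · intro a _
    exact ZMod.natCast_zmod_val a
  · intro a _
    rfl

theorem tAug : S_Aug := by
  intro p _ A _
  have : NeZero p := ⟨(Fact.out : p.Prime).ne_zero⟩
  have hp1 : 1 < p := (Fact.out : p.Prime).one_lt
  refine ⟨?_, ?_, ?_⟩
  · intro v hv
    refine ⟨fun i => ∑ j ∈ Finset.range (i.val + 1), v (j : ZMod p), fun i => ?_⟩
    by_cases hi : i = 0
    · subst hi
      have h1 : ((0 : ZMod p) - 1).val = p - 1 := by
        have h2 : (0 : ZMod p) - 1 = ((p - 1 : ℕ) : ZMod p) := by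
          rw [Nat.cast_sub hp1.le]
          simp
        rw [h2]
        exact ZMod.val_natCast_of_lt (by omega)
      have h3 : p - 1 + 1 = p := by omega
      simp only [h1, h3, ZMod.val_zero]
      rw [Aug_range, hv]
      simp
    · have h0 : i.val ≠ 0 := fun h => hi ((ZMod.val_eq_zero i).1 h)
      obtain ⟨m, hm⟩ : ∃ m, i.val = m + 1 := ⟨i.val - 1, by omega⟩
      have hlt : m < p := by
        have := ZMod.val_lt i
        omega
      have h1 : (i - 1).val = m := by
        have h2 : i - 1 = (m : ZMod p) := by
          have h3 : i = ((m + 1 : ℕ) : ZMod p) := by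
            rw [← hm]
            exact (ZMod.natCast_zmod_val i).symm
          rw [h3]
          push_cast
          ring
        rw [h2]
        exact ZMod.val_natCast_of_lt hlt
      simp only [h1]
      have h4 : v i = v (((m + 1 : ℕ)) : ZMod p) := by
        rw [← hm, ZMod.natCast_zmod_val]
      rw [hm, Finset.sum_range_succ (fun j : ℕ => v (j : ZMod p)) (m + 1), h4]
      abel
  · intro z hz
    refine ⟨z 0, fun i => ?_⟩
    have h : ∀ n : ℕ, z (n : ZMod p) = z 0 := by
      intro n
      induction n with
      | zero => simp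
      | succ n ih =>
        have h1 := hz ((n + 1 : ℕ) : ZMod p)
        have h2 : (((n + 1 : ℕ) : ZMod p) - 1) = (n : ZMod p) := by
          push_cast
          ring
        rw [h2] at h1
        rw [sub_eq_zero.mp h1, ih]
    have h3 := h i.val
    rwa [ZMod.natCast_zmod_val] at h3
  · intro z
    rw [Finset.sum_sub_distrib]
    have h : ∑ i, z (i - 1) = ∑ i, z i :=
      Fintype.sum_equiv (Equiv.subRight (1 : ZMod p)) _ _ (fun i => rfl)
    rw [h, sub_self]

end Pool.Agent.MP72P
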