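import Pool.Agent.Lib.MP_72e2e6_nt.P3.E.Spec

/-!
# MP_72e2e6_nt, theorem T3p, part E: a small group has a small exponent
-/

namespace Pool.Agent.MP72P

open WeierstrassCurve
open Pool.Agent.MP72W (pmap)
open Pool.Agent.MP72V

open scoped Classical

section

variable {K S L M : Type} [Field K] (W : WeierstrassCurve K) [Field S] [Field L] [Field M]
  [Algebra K S] [Algebra K L] [Algebra K M] [Algebra S L] [Algebra S M]
  [IsScalarTower K S L] [IsScalarTower K S M] {p : ℕ} [Fact p.Prime]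

private theorem cycv_add [dL : DecidableEq L] [dM : DecidableEq M] (f : L →ₐ[S] M)
    (P Q : (W⁄L).toAffine.Point) : pmap W f (P + Q) = pmap W f P + pmap W f Q := by
  have h1 : dL = fun a b => Classical.propDecidable (a = b) := Subsingleton.elim _ _
  have h2 : dM = fun a b => Classical.propDecidable (a = b) := Subsingleton.elim _ _
  subst h1 h2
  exact AddMonoidHom.map_add _ P Q

private theorem cycv_zero (f : L →ₐ[S] M) : pmap W f (0 : (W⁄L).toAffine.Point) = 0 :=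
  AddMonoidHom.map_zero (pmap W f)

private theorem cycv_neg (f : L →ₐ[S] M)
    (P : (W⁄L).toAffine.Point) : pmap W f (-P) = -pmap W f P :=
  AddMonoidHom.map_neg (pmap W f) P

private theorem cycv_nsmul [dL : DecidableEq L] [dM : DecidableEq M] (f : L →ₐ[S] M) (n : ℕ)
    (P : (W⁄L).toAffine.Point) : pmap W f (n • P) = n • pmap W f P := by
  have h1 : dL = fun a b => Classical.propDecidable (a = b) := Subsingleton.elim _ _
  have h2 : dM = fun a b => Classical.propDecidable (a = b) := Subsingleton.elim _ _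
  subst h1 h2
  exact AddMonoidHom.map_nsmul _ _ _

private theorem tacv_add [dL : DecidableEq L] [dM : DecidableEq M] (c : ZMod p) (f : L →ₐ[S] M) (v w : ZMod p → (W⁄L).toAffine.Point) :
    tac W c f (v + w) = tac W c f v + tac W c f w :=
  funext fun i => cycv_add W f (v (i - c)) (w (i - c))

private theorem tacv_zero (c : ZMod p) (f : L →ₐ[S] M) :
    tac W c f (0 : ZMod p → (W⁄L).toAffine.Point) = 0 :=
  funext fun _ => cycv_zero W f

private theorem tacv_neg (c : ZMod p) (f : L →ₐ[S] M) (v : ZMod p → (W⁄L).toAffine.Point) :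
    tac W c f (-v) = -tac W c f v :=
  funext fun i => cycv_neg W f (v (i - c))

private theorem tacv_nsmul [dL : DecidableEq L] [dM : DecidableEq M] (c : ZMod p) (f : L →ₐ[S] M) (n : ℕ)
    (v : ZMod p → (W⁄L).toAffine.Point) : tac W c f (n • v) = n • tac W c f v :=
  funext fun i => cycv_nsmul W f n (v (i - c))

end

/-- **CycV**. A small group has a small exponent. -/
theorem tCycV (h1 : S_ShgV) : S_CycV := by
  intro p _ K _ W h hh k hk hn z P hzp
  obtain ⟨_, _, _, hmul, _⟩ := h1 p K (fr p W 0) h hh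
  have hp1 : 1 < p := (Fact.out : p.Prime).one_lt
  -- the subgroup of the integers `a` with `a (z, P) ~ 0`
  let H : AddSubgroup ℤ :=
    { carrier := {a | ∃ m : ZMod p → Pt p W 0 (Kgs K), ∑ i, m i = 0 ∧
        (∀ σ, a • z σ = tac (fr p W 0) (h σ) (σ : Kgs K →ₐ[K] Kgs K) m - m) ∧
        a • P = p ^ k • m}
      add_mem' := by
        rintro a b ⟨m, hm0, hm1, hm2⟩ ⟨m', hm0', hm1', hm2'⟩
        refine ⟨m + m', ?_, fun σ => ?_, ?_⟩
        · simp only [Pi.add_apply, Finset.sum_add_distrib, hm0, hm0', add_zero]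
        · rw [add_zsmul, hm1 σ, hm1' σ, tacv_add]
          abel
        · rw [add_zsmul, hm2, hm2', smul_add]
      zero_mem' := ⟨0, Finset.sum_const_zero,
        fun σ => by rw [zero_zsmul, tacv_zero, sub_zero], by rw [zero_zsmul, smul_zero]⟩
      neg_mem' := by
        rintro a ⟨m, hm0, hm1, hm2⟩
        refine ⟨-m, ?_, fun σ => ?_, ?_⟩
        · simp only [Pi.neg_apply, Finset.sum_neg_distrib, hm0, neg_zero]
        · rw [neg_zsmul, hm1 σ, tacv_neg]
          abel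
        · rw [neg_zsmul, hm2, smul_neg] }
  have hH : ∀ a : ℤ, a ∈ H ↔ ∃ m : ZMod p → Pt p W 0 (Kgs K), ∑ i, m i = 0 ∧
        (∀ σ, a • z σ = tac (fr p W 0) (h σ) (σ : Kgs K →ₐ[K] Kgs K) m - m) ∧
        a • P = p ^ k • m := fun a => Iff.rfl
  have hp2 : ((p ^ k : ℕ) : ℤ) ∈ H := by
    rw [hH]
    refine ⟨P, hzp.sum, fun σ => ?_, ?_⟩
    · rw [natCast_zsmul]
      exact hzp.mul σ
    · rw [natCast_zsmul]
  -- two multiples are equivalent
  have hIs : ∀ i : Fin (p ^ k), ZPV p W h k (fun σ => (i : ℕ) • z σ) ((i : ℕ) • P) := by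
    intro i
    refine ⟨hmul i z hzp.sha, ?_, fun σ => ?_⟩
    · simp only [Pi.smul_apply, ← Finset.smul_sum, hzp.sum, smul_zero]
    · have h2 := hzp.mul σ
      rw [smul_comm, h2, smul_sub, tacv_nsmul]
  obtain ⟨i, j, hij, m, hm0, hm1, hm2⟩ : ∃ i j : Fin (p ^ k), i ≠ j ∧
      ZEV p W h k (fun σ => (i : ℕ) • z σ) (fun σ => (j : ℕ) • z σ) ((i : ℕ) • P)
        ((j : ℕ) • P) := by
    by_contra hcon
    push Not at hcon
    exact lt_irrefl _ (hn (p ^ k) (fun i σ => (i : ℕ) • z σ) (fun i => (i : ℕ) • P) hIs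
      (fun i j hij => hcon i j hij))
  have hd : ((i : ℕ) : ℤ) - ((j : ℕ) : ℤ) ∈ H := by
    rw [hH]
    refine ⟨m, hm0, fun σ => ?_, ?_⟩
    · rw [sub_zsmul, natCast_zsmul, natCast_zsmul]
      exact hm1 σ
    · rw [sub_zsmul, natCast_zsmul, natCast_zsmul]
      exact hm2
  -- the greatest common divisor
  obtain ⟨e, hek, he⟩ := (Nat.dvd_prime_pow (Fact.out : p.Prime)).1
    (Int.natCast_dvd_natCast.1 (Int.gcd_dvd_left (a := ((p ^ k : ℕ) : ℤ))
      (b := ((i : ℕ) : ℤ) - ((j : ℕ) : ℤ))))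
  have hgH : ((Int.gcd ((p ^ k : ℕ) : ℤ) (((i : ℕ) : ℤ) - ((j : ℕ) : ℤ)) : ℕ) : ℤ) ∈ H := by
    rw [Int.gcd_eq_gcd_ab]
    refine H.add_mem ?_ ?_
    · rw [mul_comm]
      exact H.zsmul_mem hp2 _
    · rw [mul_comm]
      exact H.zsmul_mem hd _
  have hne : e ≠ k := by
    intro h
    have h2 : ((p ^ k : ℕ) : ℤ) ∣ ((i : ℕ) : ℤ) - ((j : ℕ) : ℤ) := by
      have := Int.gcd_dvd_right (a := ((p ^ k : ℕ) : ℤ)) (b := ((i : ℕ) : ℤ) - ((j : ℕ) : ℤ))
      rw [he, h] at this
      exact this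
    have hi := i.2
    have hj := j.2
    have h3 := Int.eq_zero_of_abs_lt_dvd h2 (by
      rw [abs_lt]
      constructor <;> omega)
    exact hij (Fin.ext (by omega))
  have hfin : ((p ^ (k - 1) : ℕ) : ℤ) ∈ H := by
    rw [he] at hgH
    have h2 : ((p ^ (k - 1) : ℕ) : ℤ) = ((p ^ (k - 1 - e) : ℕ) : ℤ) • ((p ^ e : ℕ) : ℤ) := by
      rw [smul_eq_mul, ← Nat.cast_mul, ← pow_add]
      congr 2
      omega
    rw [h2]
    exact H.zsmul_mem hgH _
  rw [hH] at hfin
  obtain ⟨m', hm0', hm1', hm2'⟩ := hfin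
  refine ⟨m', hm0', fun σ => ?_, ?_⟩
  · rw [← hm1' σ, natCast_zsmul]
  · rw [← hm2', natCast_zsmul]

end Pool.Agent.MP72P
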