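import Pool.Agent.Lib.MP_72e2e6_nt.P3.E.SpecB

/-!
# MP_72e2e6_nt, theorem T3p, part E: the count on the side of the Frobenius isogeny
-/

namespace Pool.Agent.MP72P

open WeierstrassCurve
open Pool.Agent.MP72W (pmap)
open Pool.Agent.MP72V

open scoped Classical

private lemma FS_symm {N : ℕ} {L : Type} [Field L] {a b : L} (h : EqN N a b) : EqN N b a := by
  obtain ⟨s, hs, rfl⟩ := h
  refine ⟨s⁻¹, inv_ne_zero hs, ?_⟩
  rw [mul_assoc, ← mul_pow, mul_inv_cancel₀ hs, one_pow, mul_one]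

private lemma FS_trans {N : ℕ} {L : Type} [Field L] {a b c : L} (h : EqN N a b)
    (h' : EqN N b c) : EqN N a c := by
  obtain ⟨s, hs, rfl⟩ := h
  obtain ⟨s', hs', rfl⟩ := h'
  refine ⟨s' * s, mul_ne_zero hs' hs, ?_⟩
  rw [mul_pow, mul_assoc]

/-- cancellation -/
private lemma FS_canc {N : ℕ} {L : Type} [Field L] {a b : L} (hb : b ≠ 0)
    (h : EqN N (a * b) b) : EqN N a 1 := by
  obtain ⟨s, hs, h⟩ := h
  refine ⟨s, hs, ?_⟩
  rw [one_mul]
  refine mul_right_cancel₀ hb ?_
  rw [h, mul_comm]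

/-- the cast from `ZMod N` to a ring in which `N = 0` -/
private lemma FS_cast {Λ : Type} [CommRing Λ] {N : ℕ} (hN : (N : Λ) = 0) {a b : ℕ}
    (h : (a : ZMod N) = b) : (a : Λ) = b := by
  have key : ∀ c : ℕ, (c : Λ) = ((c % N : ℕ) : Λ) := by
    intro c
    conv_lhs => rw [← Nat.div_add_mod c N]
    rw [Nat.cast_add, Nat.cast_mul, hN, zero_mul, zero_add]
  rw [key a, key b, (ZMod.natCast_eq_natCast_iff' a b N).1 h]

/-- Vectors with equivalent values of `w` differ by an element of the image of `Fn`. -/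
private lemma FS_core (h2 : S_It) {p : ℕ} [Fact p.Prime] (hp : p ≠ 2) {K : Type} [Field K]
    [CharP K p] (W : WeierstrassCurve K) (hW : IsNf W) {L : Type} [Field L] [Algebra K L]
    [dL : DecidableEq L] (k : ℕ) (R : Pt p W k L) (w : Pt p W k L → L) (hw : IsWt p W k R w)
    (P P' : ZMod p → Pt p W k L) (hP : ∑ l, P l = 0) (hP' : ∑ l, P' l = 0)
    (h : ∀ l, EqN (p ^ k) (w (P l)) (w (P' l))) :
    ∃ q : ZMod p → Pt p W 0 L, ∑ l, q l = 0 ∧ ∀ l, P l - P' l = Fn p W k (q l) := by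
  obtain rfl : dL = fun a b => Classical.propDecidable (a = b) := Subsingleton.elim _ _
  obtain ⟨hFa, -, -, -, hFi, -⟩ := h2 p hp K W hW L
  let F : Pt p W 0 L →+ Pt p W k L := AddMonoidHom.mk' (Fn p W k) (hFa k)
  have hF : ∀ X, Fn p W k X = F X := fun _ => rfl
  have hq : ∀ l, ∃ q, P l - P' l = Fn p W k q := by
    intro l
    rw [← hw.ker]
    have a2 := hw.add (P l - P' l) (P' l)
    rw [sub_add_cancel] at a2
    exact FS_canc (hw.ne _) (FS_trans (FS_symm a2) (h l))
  choose q hq using hq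
  refine ⟨q, ?_, hq⟩
  apply hFi k
  rw [hF, hF, map_sum, map_zero]
  have e : ∀ l ∈ Finset.univ, F (q l) = P l - P' l := fun l _ => (hq l).symm
  rw [Finset.sum_congr rfl e, Finset.sum_sub_distrib, hP, hP', sub_zero]

theorem tFS (h1 : S_Lrb) (h2 : S_It) (h3 : S_Wt) (h4 : S_Hst) (h5 : S_RCs) (h6 : S_FSu) :
    S_FS := by
  intro p _ hp K _ _ hG W hW J av α h₀ hHS ι T t w₀ d e hL y₀ hOk D hD k hk R hR ψ ψl ψ1 ψm
    ψr ψR hWu Λ _ π φ hφ n P hP hne
  have hp2 : p.Prime := Fact.out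
  have hLR := hφ.lr
  obtain ⟨hfin, hzp, ⟨hz0, hza⟩, -, -, -, -, -, hz9, -⟩ := h1 p (k * (p - 1)) Λ π hLR
  have : NeZero (p ^ k) := ⟨pow_ne_zero k hp2.ne_zero⟩
  have hc : ∀ {a b : ℕ}, (a : ZMod (p ^ k)) = b → (a : Λ) = b := fun h => FS_cast hφ.ck h
  obtain ⟨-, -, -, -, -, -, -, -, -, -, -, -, -, hom, -, -⟩ := h4 p K hG J av α h₀ hHS
  have hhD := hom D hD
  -- the character
  have hChr : Chr π (omS p av α) (tw π (fun g => ((ψ g).val : Λ)) (hS p av α D)) := by
    refine ⟨?_, ?_, ?_, ?_⟩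
    · unfold tw
      exact (ψl.comp fun x : ZMod (p ^ k) => ((x.val : ℕ) : Λ)).mul
        (hhD.loc.comp fun c : ZMod p => zt π c)
    · have e0 : hS p av α D 1 = 0 := by
        have := hhD.add 1 1
        rw [mul_one] at this
        simpa using this
      unfold tw
      rw [e0, hz0, mul_one]
      simp only [ψ1]
      have := hc (a := (1 : ZMod (p ^ k)).val) (b := 1) (by simp)
      simpa using this
    · intro a b
      unfold tw
      simp only [hhD.add, hza, ψm]
      have := hc (a := (ψ a * ψ b).val) (b := (ψ a).val * (ψ b).val) (by simp)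
      rw [Nat.cast_mul] at this
      rw [this]
      ring
    · intro a
      obtain ⟨y, hy⟩ := ψr a
      obtain ⟨y', hy'⟩ := hLR.pdv
      obtain ⟨y'', hy''⟩ := hz9 (hS p av α D a)
      have e1 := hc (a := (ψ a).val) (b := (omS p av α a).val + p * y.val) (by
        rw [ZMod.natCast_zmod_val, hy]
        push_cast
        rw [ZMod.natCast_zmod_val])
      push_cast at e1
      unfold tw
      have e2 : zt π (hS p av α D a) =
          1 - (((hS p av α D a).val : ℕ) : Λ) * π - π ^ 2 * y'' := by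
        rw [sub_sub, ← hy'']
        ring
      refine ⟨y' * y.val - (((ψ a).val : ℕ) : Λ) * ((((hS p av α D a).val : ℕ) : Λ) + π * y''),
        ?_⟩
      rw [e2]
      have e3 : (((ψ a).val : ℕ) : Λ) *
          (1 - (((hS p av α D a).val : ℕ) : Λ) * π - π ^ 2 * y'') =
          (((ψ a).val : ℕ) : Λ) - π * ((((ψ a).val : ℕ) : Λ) *
            ((((hS p av α D a).val : ℕ) : Λ) + π * y'')) := by
        ring
      rw [e3]
      conv_lhs => rw [e1, hy']
      rw [e1, hy']
      ring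
  -- the functions
  obtain ⟨w, hw⟩ := h3 p hp K W hW (Kgs K) k R hR
  have hex := fun i => h6 p hp K hG W hW J av α h₀ hHS D hD k hk R hR w hw ψ ψR hWu Λ π φ hφ
    (P i) (hP i)
  choose u hu1 hu2 using hex
  have hinj : ∀ i j, (∀ z, EqN (p ^ k) (u i z) (u j z)) → i = j := by
    intro i j hij
    by_contra hne'
    apply hne i j hne'
    exact FS_core h2 hp W hW k R w hw (P i) (P j) (hP i).sum (hP j).sum fun l =>
      FS_trans (FS_symm (hu2 i l)) (FS_trans (hij _) (hu2 j l))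
  have huinj : Function.Injective u := by
    intro i j hij
    apply hinj i j
    intro z
    rw [hij]
    exact ⟨1, one_ne_zero, by rw [one_pow, mul_one]⟩
  have hR := h5 p K hG J av α h₀ hHS ι T t w₀ d e hL y₀ hOk (k * (p - 1)) k Λ π hLR hφ.ck _ hChr
    (Set.range u) (by
      rintro _ ⟨i, rfl⟩
      exact hu1 i) (by
      rintro _ ⟨i, rfl⟩ _ ⟨j, rfl⟩ hij
      rw [hinj i j hij])
  have hcard : (Set.range u).ncard = n := by
    rw [← Set.image_univ, Set.ncard_image_of_injective _ huinj, Set.ncard_univ, Nat.card_fin]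
  rw [hcard] at hR
  exact hR.2

end Pool.Agent.MP72P
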