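import Pool.Agent.Lib.MP_72e2e6_nt.P3.E.SpecB

/-!
# MP_72e2e6_nt, theorem T3p, part E: the admissible function of a vector
-/

namespace Pool.Agent.MP72P

open WeierstrassCurve
open Pool.Agent.MP72W (pmap)
open Pool.Agent.MP72V

open scoped Classical

section eqn

variable {L : Type} [Field L] {N : ℕ}

private theorem fsu_rfl (a : L) : EqN N a a := ⟨1, one_ne_zero, by rw [one_pow, mul_one]⟩

private theorem fsu_symm {a b : L} (h : EqN N a b) : EqN N b a := by
  obtain ⟨s, hs, rfl⟩ := h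
  exact ⟨s⁻¹, inv_ne_zero hs, by rw [mul_assoc, ← mul_pow, mul_inv_cancel₀ hs, one_pow, mul_one]⟩

private theorem fsu_trans {a b c : L} (h : EqN N a b) (h' : EqN N b c) : EqN N a c := by
  obtain ⟨s, hs, rfl⟩ := h
  obtain ⟨t, ht, rfl⟩ := h'
  exact ⟨t * s, mul_ne_zero ht hs, by rw [mul_pow, mul_assoc]⟩

private theorem fsu_mul {a b c d : L} (h : EqN N a b) (h' : EqN N c d) :
    EqN N (a * c) (b * d) := by
  obtain ⟨s, hs, rfl⟩ := h
  obtain ⟨t, ht, rfl⟩ := h'
  exact ⟨s * t, mul_ne_zero hs ht, by rw [mul_pow, mul_mul_mul_comm]⟩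

private theorem fsu_pow {a b : L} (h : EqN N a b) (n : ℕ) : EqN N (a ^ n) (b ^ n) := by
  obtain ⟨s, hs, rfl⟩ := h
  exact ⟨s ^ n, pow_ne_zero n hs, by rw [mul_pow, ← pow_mul, ← pow_mul, mul_comm n]⟩

private theorem fsu_prod {ι : Type*} (s : Finset ι) (a b : ι → L) (h : ∀ i, EqN N (a i) (b i)) :
    EqN N (∏ i ∈ s, a i) (∏ i ∈ s, b i) := by
  induction s using Finset.induction_on with
  | empty => exact fsu_rfl _
  | insert i s hi ih =>
    rw [Finset.prod_insert hi, Finset.prod_insert hi]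
    exact fsu_mul (h i) ih

private theorem fsu_exp {u : L} (hu : u ≠ 0) {m n : ℕ} (h : (m : ZMod N) = n) :
    EqN N (u ^ m) (u ^ n) := by
  have h1 := (ZMod.natCast_eq_natCast_iff m n N).mp h
  obtain ⟨q, hq⟩ := (Nat.modEq_iff_dvd.mp h1.symm)
  refine ⟨u ^ q, zpow_ne_zero q hu, ?_⟩
  rw [← zpow_natCast u m, ← zpow_natCast u n, ← zpow_natCast (u ^ q) N, ← zpow_mul,
    ← zpow_add₀ hu]
  congr 1
  linarith

private theorem fsu_map {L' : Type} [Field L'] (σ : L →+* L') {a b : L} (h : EqN N a b) :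
    EqN N (σ a) (σ b) := by
  obtain ⟨s, hs, rfl⟩ := h
  exact ⟨σ s, (map_ne_zero σ).mpr hs, by rw [map_mul, map_pow]⟩

end eqn

section wt

variable {K : Type} [Field K] {p : ℕ} {W : WeierstrassCurve K} {L : Type} [Field L] [Algebra K L]
  {k : ℕ} {R : Pt p W k L} {w : Pt p W k L → L}

private theorem fsu_Fn [dL : DecidableEq L] (hw : IsWt p W k R w) (X : Pt p W k L)
    (q : Pt p W 0 L) : EqN (p ^ k) (w (X + Fn p W k q)) (w X) := by
  have hd : dL = fun a b => Classical.propDecidable (a = b) := Subsingleton.elim _ _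
  subst hd
  have h1 := hw.add X (Fn p W k q)
  have h2 := (hw.ker (Fn p W k q)).2 ⟨q, rfl⟩
  have h3 := fsu_trans h1 (fsu_mul (fsu_rfl (w X)) h2)
  rwa [mul_one] at h3

private theorem fsu_sum [dL : DecidableEq L] (hw : IsWt p W k R w) (h0 : EqN (p ^ k) (w 0) 1)
    {ι : Type*} (s : Finset ι) (X : ι → Pt p W k L) :
    EqN (p ^ k) (w (∑ i ∈ s, X i)) (∏ i ∈ s, w (X i)) := by
  have hd : dL = fun a b => Classical.propDecidable (a = b) := Subsingleton.elim _ _
  subst hd
  induction s using Finset.induction_on with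
  | empty => exact h0
  | insert i s hi ih =>
    rw [Finset.sum_insert hi, Finset.prod_insert hi]
    exact fsu_trans (hw.add _ _) (fsu_mul (fsu_rfl _) ih)

private theorem fsu_F0 (hIt : S_It) [Fact p.Prime] (hp2 : p ≠ 2) [CharP K p] (hW : IsNf W) :
    Fn p W k (0 : Pt p W 0 L) = 0 := by
  have h1 := (hIt p hp2 K W hW L).1 k 0 0
  rw [add_zero] at h1
  exact left_eq_add.1 h1

/-- `w (f P) = w (Q)` if `f P = Q + Fn q` -/
private theorem fsu_wtc (hWtc : S_Wtc) [Fact p.Prime] (hp2 : p ≠ 2) [CharP K p] (hW : IsNf W)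
    [IsSepClosed L] (hR : IsR p W k R) (hw : IsWt p W k R w)
    {S M : Type} [Field S] [Field M] [dM : DecidableEq M] [Algebra K S] [Algebra K M] [Algebra S L]
    [Algebra S M] [IsScalarTower K S L] [IsScalarTower K S M] (f : L →ₐ[S] M)
    {R' : Pt p W k M} (hR' : IsR p W k R') {w' : Pt p W k M → M} (hw' : IsWt p W k R' w') {m : ℕ}
    (h : pmap (fr p W k) f R = m • R') (P : Pt p W k L) (Q : Pt p W k M) (q : Pt p W 0 M)
    (hQ : pmap (fr p W k) f P = Q + Fn p W k q) :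
    EqN (p ^ k) (f (w P)) (w' Q ^ m) := by
  have hd : dM = fun a b => Classical.propDecidable (a = b) := Subsingleton.elim _ _
  subst hd
  have h1 := hWtc p hp2 K W hW L k R hR w hw S M f R' hR' w' hw' m h P
  rw [hQ] at h1
  exact fsu_trans h1 (fsu_pow (fsu_Fn hw' Q q) m)

end wt

section nm

variable {K : Type} [Field K] {v : AbsoluteValue K ℝ} {p Q : ℕ} {ϖ : K} {R : Finset K}

private theorem fsu_ultra (hna : IsNonarchimedean v) : IsUltrametricDist v.Completion := by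
  refine IsUltrametricDist.isUltrametricDist_of_forall_norm_add_le_max_norm fun x y => ?_
  refine UniformSpace.Completion.induction_on₂ x y ?_ fun a b => ?_
  · exact isClosed_le (by fun_prop) (by fun_prop)
  · rw [← UniformSpace.Completion.coe_add, UniformSpace.Completion.norm_coe,
      UniformSpace.Completion.norm_coe, UniformSpace.Completion.norm_coe]
    exact hna a.ofAbs b.ofAbs

private theorem fsu_nm_mul (h : LF v p Q ϖ R) (x y : Kvs v) : nm v (x * y) = nm v x * nm v y := by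
  have hult := fsu_ultra h.na
  have hn : ∀ x : K, ‖algebraMap K v.Completion x‖ = v x := fun x =>
    UniformSpace.Completion.norm_coe (WithAbs.toAbs v x)
  have hne : ∃ x : v.Completion, x ≠ 0 ∧ ‖x‖ ≠ 1 := by
    refine ⟨algebraMap K v.Completion ϖ, ?_, ?_⟩
    · intro h0
      have h1 := hn ϖ
      rw [h0, norm_zero] at h1
      exact h.pi0.ne h1
    · rw [hn]
      exact h.pi1.ne
  let _ : NontriviallyNormedField v.Completion := NontriviallyNormedField.ofNormNeOne hne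
  exact spectralAlgNorm_mul (K := v.Completion) (L := Kvs v) x y

private theorem fsu_nm_one (h : LF v p Q ϖ R) : nm v (1 : Kvs v) = 1 := by
  have hult := fsu_ultra h.na
  have h1 : nm v (algebraMap v.Completion (Kvs v) 1) = ‖(1 : v.Completion)‖ :=
    spectralNorm_extends _
  rwa [map_one, norm_one] at h1

private theorem fsu_nm_pow (h : LF v p Q ϖ R) (x : Kvs v) (n : ℕ) :
    nm v (x ^ n) = nm v x ^ n := by
  induction n with
  | zero => rw [pow_zero, pow_zero, fsu_nm_one h]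
  | succ n ih => rw [pow_succ, pow_succ, fsu_nm_mul h, ih]

private theorem fsu_nm_prod (h : LF v p Q ϖ R) {ι : Type*} (s : Finset ι) (r : ι → Kvs v)
    (x : ι → ℤ) (n : ι → ℕ) (hr : ∀ i, nm v (r i) = v ϖ ^ x i) :
    nm v (∏ i ∈ s, r i ^ n i) = v ϖ ^ (∑ i ∈ s, (n i : ℤ) * x i) := by
  have h0 : v ϖ ≠ 0 := h.pi0.ne'
  induction s using Finset.induction_on with
  | empty => rw [Finset.prod_empty, Finset.sum_empty, zpow_zero, fsu_nm_one h]
  | insert i s hi ih =>
    rw [Finset.prod_insert hi, Finset.sum_insert hi, fsu_nm_mul h, ih, fsu_nm_pow h, hr,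
      zpow_add₀ h0, mul_comm (n i : ℤ), zpow_mul, zpow_natCast]

end nm

theorem tFSu (_hBas : MP72V.S_Bas) (_hFr : MP72V.S_Fr) (hIt : S_It) (hWt : S_Wt) (hWtc : S_Wtc)
    (_hHas : S_Has) (hHst : S_Hst) (hRgo : S_Rgo) (hOnr : S_Onr) (hUw : S_Uw) : S_FSu := by
  intro p _ hp2 K _ _ hG W hW J av α h₀ hα D hDm k hk R hR w hw ψ hψ hWu Λ _ π φ hφ P hPs
  obtain ⟨-, -, -, -, hhS, -, hloc⟩ := hRgo p K hG J av α h₀ hα
  obtain ⟨-, -, -, -, -, -, -, -, -, -, -, -, -, hhom, -, -⟩ := hHst p K hG J av α h₀ hα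
  obtain ⟨-, -, -, -, -, -, -, -, -, hItR⟩ := hIt p hp2 K W hW (Kgs K)
  -- `w 0 = 1`
  have hF0 : Fn p W k (0 : Pt p W 0 (Kgs K)) = 0 := fsu_F0 hIt hp2 hW
  have hw0 : EqN (p ^ k) (w 0) 1 := (hw.ker 0).2 ⟨0, hF0.symm⟩
  have hprod : EqN (p ^ k) (∏ i, w (P i)) 1 := by
    have h1 := fsu_sum hw hw0 Finset.univ P
    rw [hPs.sum] at h1
    exact fsu_trans (fsu_symm h1) hw0
  obtain ⟨u, hu0, hu1, hu2, hu3⟩ := hUw p k hk Λ π φ hφ (Kgs K) (fun i => w (P i))
    (fun i => hw.ne _) hprod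
  refine ⟨u, ⟨⟨hu0, hu2, ?_⟩, ?_⟩, hu3⟩
  · -- the action of the Galois group
    intro σ y
    obtain ⟨z, rfl⟩ := hφ.sur y
    obtain ⟨m, hm⟩ : ∃ m : ℕ, m = (ψ (rG p av α σ)).val := ⟨_, rfl⟩
    obtain ⟨c, hc⟩ : ∃ c, c = hD p D σ := ⟨_, rfl⟩
    have hch : tw π (fun g => ((ψ g).val : Λ)) (hS p av α D) (rGo (p := p) (av := av) (α := α) σ) =
        m * zt π c := by
      have h1 : (rGo (p := p) (av := av) (α := α) σ) = rG p av α σ := rfl
      have h2 := hhS D hDm σ
      rw [h1, tw, h2, hm, hc]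
      rfl
    obtain ⟨qq, -, hq⟩ := hPs.glo σ
    have key : ∀ i, EqN (p ^ k) (σ (w (P i))) (w (P (i + c)) ^ m) := by
      intro i
      refine fsu_wtc hWtc hp2 hW hR hw (σ : Kgs K →ₐ[K] Kgs K) hR hw (m := m) ?_ (P i)
        (P (i + c)) (qq (i + c)) ?_
      · rw [hm]
        exact hψ σ
      · have h1 := congrFun hq (i + c)
        rw [tac, ← hc, add_sub_cancel_right] at h1
        exact h1
    have e1 : EqN (p ^ k) (σ (u (φ z))) (∏ i, (w (P (i + c)) ^ m) ^ (z i).val) := by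
      refine fsu_trans (fsu_map (σ : Kgs K →+* Kgs K) (hu1 z)) ?_
      have h2 : (σ : Kgs K →+* Kgs K) (∏ i, w (P i) ^ (z i).val) =
          ∏ i, σ (w (P i)) ^ (z i).val := by
        rw [map_prod]
        refine Finset.prod_congr rfl fun i _ => ?_
        rw [map_pow]
        rfl
      rw [h2]
      exact fsu_prod _ _ _ fun i => fsu_pow (key i) _
    have e2 : EqN (p ^ k) (∏ i, (w (P (i + c)) ^ m) ^ (z i).val)
        (∏ i, w (P i) ^ ((fun i => (m : ZMod (p ^ k)) * z (i - c)) i).val) := by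
      have h1 : ∏ i, (w (P (i + c)) ^ m) ^ (z i).val = ∏ i, (w (P i) ^ m) ^ (z (i - c)).val := by
        refine Fintype.prod_equiv (Equiv.addRight c) _ _ fun i => ?_
        rw [Equiv.coe_addRight, add_sub_cancel_right]
      rw [h1]
      refine fsu_prod _ _ _ fun i => ?_
      rw [← pow_mul]
      refine fsu_exp (hw.ne _) ?_
      have : NeZero (p ^ k) := ⟨pow_ne_zero _ (Fact.out : p.Prime).ne_zero⟩
      rw [Nat.cast_mul, ZMod.natCast_zmod_val, ZMod.natCast_zmod_val]
    have e3 : φ (fun i => (m : ZMod (p ^ k)) * z (i - c)) = m * zt π c * φ z := by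
      rw [hφ.nsm (fun i => z (i - c)) m, hφ.shf, mul_assoc]
    have e4 := hu1 (fun i => (m : ZMod (p ^ k)) * z (i - c))
    rw [e3] at e4
    change EqN (p ^ k) (σ (u (φ z))) _
    rw [hch]
    exact fsu_trans e1 (fsu_trans e2 (fsu_symm e4))
  · -- unramified
    intro v hv hne Q ϖ R₀ hLF ι y
    obtain ⟨z, rfl⟩ := hφ.sur y
    have hR' : IsR p W k (pmap (fr p W k) ι R) := hItR k R K (Kvs v) ι hR
    obtain ⟨w', hw'⟩ := hWt p hp2 K W hW (Kvs v) k _ hR'
    obtain ⟨qq, -, hq⟩ := hPs.lcl v hv ι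
    have hX : ∀ i, ∀ g : Gal(Kvs v/v.Completion), IsGeo p g →
        pmap (fr p W k) (g : Kvs v →ₐ[v.Completion] Kvs v)
          (pmap (fr p W k) ι (P i) - Fn p W k (qq i)) =
            pmap (fr p W k) ι (P i) - Fn p W k (qq i) := by
      intro i g hg
      have h0 : hD p D (rsH (M := v.Completion) ι g) = 0 := by
        have h1 := hhS D hDm (rsH (M := v.Completion) ι g)
        rw [← (hloc v ι).2.1 g, (hOnr p K hG J av α h₀ hα v hv hne ι).2.2 g hg] at h1
        have h2 := (hhom D hDm).add 1 1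
        rw [mul_one] at h2
        have h3 := left_eq_add.1 h2
        rw [h3] at h1
        exact h1.symm
      have h4 := congrFun (hq g) i
      rw [tac, h0, sub_zero] at h4
      exact h4
    choose r hrK hr0 hre x hx hxd using fun i => hWu v hv hne Q ϖ R₀ hLF _ hR' w' hw' _ (hX i)
    refine ⟨∏ i, r i ^ (z i).val, ?_, ?_, ?_, ∑ i, ((z i).val : ℤ) * x i, ?_, ?_⟩
    · exact prod_mem fun i _ => pow_mem (hrK i) _
    · exact Finset.prod_ne_zero_iff.2 fun i _ => pow_ne_zero _ (hr0 i)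
    · have key : ∀ i, EqN (p ^ k) (ι (w (P i))) (r i) := by
        intro i
        have h1 := fsu_wtc hWtc hp2 hW hR hw ι hR' hw' (m := 1) (by rw [one_smul]) (P i)
          (pmap (fr p W k) ι (P i) - Fn p W k (qq i)) (qq i) (by rw [sub_add_cancel])
        rw [pow_one] at h1
        exact fsu_trans h1 (hre i)
      refine fsu_trans (fsu_map (ι : Kgs K →+* Kvs v) (hu1 z)) ?_
      have h2 : (ι : Kgs K →+* Kvs v) (∏ i, w (P i) ^ (z i).val) =
          ∏ i, ι (w (P i)) ^ (z i).val := by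
        rw [map_prod]
        refine Finset.prod_congr rfl fun i _ => ?_
        rw [map_pow]
        rfl
      rw [h2]
      exact fsu_prod _ _ _ fun i => fsu_pow (key i) _
    · exact fsu_nm_prod hLF _ r x (fun i => (z i).val) hx
    · exact Finset.dvd_sum fun i _ => Dvd.dvd.mul_left (hxd i) _

end Pool.Agent.MP72P
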