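import Pool.Agent.Lib.MP_72e2e6_nt.P3.E.Spec

/-!
# MP_72e2e6_nt, theorem T3p, part E: finiteness of the `p`-primary part of Sha, divisibility
-/

namespace Pool.Agent.MP72P

open WeierstrassCurve
open Pool.Agent.MP72W (pmap)
open Pool.Agent.MP72V

open scoped Classical

section

variable {K S L M : Type} [Field K] (W : WeierstrassCurve K) [Field S] [Field L] [Field M]
  [Algebra K S] [Algebra K L] [Algebra K M] [Algebra S L] [Algebra S M]
  [IsScalarTower K S L] [IsScalarTower K S M] {p : ℕ} [Fact p.Prime]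

private theorem fshv_neg0 (f : L →ₐ[S] M)
    (P : (W⁄L).toAffine.Point) : pmap W f (-P) = -pmap W f P :=
  AddMonoidHom.map_neg (pmap W f) P

private theorem fshv_nsmul0 [dL : DecidableEq L] [dM : DecidableEq M] (f : L →ₐ[S] M) (n : ℕ)
    (P : (W⁄L).toAffine.Point) : pmap W f (n • P) = n • pmap W f P := by
  have h1 : dL = fun a b => Classical.propDecidable (a = b) := Subsingleton.elim _ _
  have h2 : dM = fun a b => Classical.propDecidable (a = b) := Subsingleton.elim _ _
  subst h1 h2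
  exact AddMonoidHom.map_nsmul _ _ _

private theorem fshv_neg (c : ZMod p) (f : L →ₐ[S] M) (v : ZMod p → (W⁄L).toAffine.Point) :
    tac W c f (-v) = -tac W c f v :=
  funext fun i => fshv_neg0 W f (v (i - c))

private theorem fshv_nsmul [dL : DecidableEq L] [dM : DecidableEq M] (c : ZMod p) (f : L →ₐ[S] M)
    (n : ℕ) (v : ZMod p → (W⁄L).toAffine.Point) : tac W c f (n • v) = n • tac W c f v :=
  funext fun i => fshv_nsmul0 W f n (v (i - c))

end

private theorem fshv_sym {K : Type} [Field K] (p : ℕ) [Fact p.Prime] (W : WeierstrassCurve K)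
    (h : Gal(Kgs K/K) → ZMod p) (k : ℕ)
    {z z' : Gal(Kgs K/K) → ZMod p → Pt p W 0 (Kgs K)} {P P' : ZMod p → Pt p W 0 (Kgs K)}
    (hz : ZEV p W h k z z' P P') : ZEV p W h k z' z P' P := by
  obtain ⟨m, h0, h1, h2⟩ := hz
  refine ⟨-m, ?_, fun σ => ?_, ?_⟩
  · simp only [Pi.neg_apply, Finset.sum_neg_distrib, h0, neg_zero]
  · rw [fshv_neg, ← neg_sub, h1 σ]
    abel
  · rw [← neg_sub, h2, smul_neg]

/-- **FshV**. Finiteness of the `p`-primary part of the Tate-Shafarevich group, divisibility. -/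
theorem tFshV (hShg : S_ShgV) (hCyc : S_CycV) : S_FshV := by
  intro p _ K _ W h hh k hk hn
  have hC := hCyc p K W h hh k hk hn
  obtain ⟨s0, -, -, s3, -⟩ := hShg p K (fr p W 0) h hh
  constructor
  · -- a maximal family
    let Pr : ℕ → Prop := fun n => ∃ (z : Fin n → Gal(Kgs K/K) → ZMod p → Pt p W 0 (Kgs K))
      (P : Fin n → ZMod p → Pt p W 0 (Kgs K)), (∀ i, ZPV p W h k (z i) (P i)) ∧
      (∀ i j, i ≠ j → ¬ ZEV p W h k (z i) (z j) (P i) (P j))
    have hP0 : Pr 0 := ⟨fun i => i.elim0, fun i => i.elim0, fun i => i.elim0, fun i => i.elim0⟩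
    have hPb : ∀ n, Pr n → n ≤ p ^ k := by
      rintro n ⟨z, P, h1, h2⟩
      exact (hn n z P h1 h2).le
    obtain ⟨n, hPn, hmax⟩ : ∃ n, Pr n ∧ ∀ m, Pr m → m ≤ n :=
      ⟨Nat.findGreatest Pr (p ^ k), Nat.findGreatest_spec (Nat.zero_le _) hP0,
        fun m hm => Nat.le_findGreatest (hPb m hm) hm⟩
    obtain ⟨z, P, h1, h2⟩ := hPn
    refine ⟨Set.range z, Set.finite_range z, ?_⟩
    intro y hy hyP
    -- `p ^ k • y` is a coboundary
    have claim : ∀ N : ℕ, (∃ Q : ZMod p → Pt p W 0 (Kgs K), ∑ i, Q i = 0 ∧ ∀ σ, p ^ N • y σ =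
        tac (fr p W 0) (h σ) (σ : Kgs K →ₐ[K] Kgs K) Q - Q) →
        ∃ Q : ZMod p → Pt p W 0 (Kgs K), ZPV p W h k y Q := by
      intro N
      induction N with
      | zero =>
        rintro ⟨Q, hQ0, hQ⟩
        refine ⟨p ^ k • Q, hy, ?_, fun σ => ?_⟩
        · simp only [Pi.smul_apply, ← Finset.smul_sum, hQ0, smul_zero]
        · rw [fshv_nsmul, ← smul_sub, ← hQ σ, pow_zero, one_smul]
      | succ N ih =>
        rintro ⟨Q, hQ0, hQ⟩
        by_cases hNk : N + 1 ≤ k
        · refine ⟨p ^ (k - (N + 1)) • Q, hy, ?_, fun σ => ?_⟩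
          · simp only [Pi.smul_apply, ← Finset.smul_sum, hQ0, smul_zero]
          · rw [fshv_nsmul, ← smul_sub, ← hQ σ, ← mul_smul, ← pow_add, Nat.sub_add_cancel hNk]
        · have hkN : k ≤ N := by omega
          have hz : ZPV p W h k (fun σ => p ^ (N + 1 - k) • y σ) Q := by
            refine ⟨s3 _ y hy, hQ0, fun σ => ?_⟩
            rw [← mul_smul, ← pow_add, Nat.add_sub_cancel' (by omega : k ≤ N + 1)]
            exact hQ σ
          obtain ⟨m, hm0, hm, -⟩ := hC _ _ hz
          refine ih ⟨m, hm0, fun σ => ?_⟩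
          rw [← hm σ, ← mul_smul, ← pow_add]
          congr 2
          omega
    obtain ⟨N, Q0, hQ0, hN⟩ := hyP
    obtain ⟨Q, hQ⟩ := claim N ⟨Q0, hQ0, hN⟩
    by_cases hex : ∃ i, ZEV p W h k y (z i) Q (P i)
    · obtain ⟨i, m, hm0, hm, -⟩ := hex
      exact ⟨z i, ⟨i, rfl⟩, m, hm0, hm⟩
    · exfalso
      have hne : ∀ i, ¬ ZEV p W h k y (z i) Q (P i) := fun i hi => hex ⟨i, hi⟩
      have h3 : Pr (n + 1) := by
        refine ⟨Fin.cons y z, Fin.cons Q P, ?_, ?_⟩
        · intro i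
          refine Fin.cases ?_ (fun j => ?_) i
          · exact hQ
          · exact h1 j
        · intro i j
          refine Fin.cases ?_ (fun i' => ?_) i
          · refine Fin.cases ?_ (fun j' => ?_) j
            · exact fun h => absurd rfl h
            · exact fun _ => hne j'
          · refine Fin.cases ?_ (fun j' => ?_) j
            · exact fun _ h' => hne i' (fshv_sym p W h k h')
            · exact fun h' => h2 i' j' fun e => h' (by rw [e])
      exact absurd (hmax _ h3) (by omega)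
  · intro v hv
    have hz : ZPV p W h k (fun _ => 0) v := by
      refine ⟨s0, hv.1, fun σ => ?_⟩
      rw [hv.2 σ, sub_self, smul_zero]
    obtain ⟨m, h0, h1, h2⟩ := hC _ _ hz
    refine ⟨m, ⟨h0, fun σ => ?_⟩, h2⟩
    have := h1 σ
    rw [smul_zero] at this
    exact sub_eq_zero.1 this.symm

end Pool.Agent.MP72P
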