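import Pool.Agent.Lib.MP_72e2e6_nt.P3.E.SpecB

/-!
MP_72e2e6_nt, T3p, P3/E: Markov's inequality and the choice of `k`.
-/

set_option autoImplicit false

namespace Pool.Agent.MP72P

open Filter Topology

private theorem mrk1 (X : Type) (𝒟 : Set X) (h𝒟 : 𝒟.Finite) (f : X → ℝ) (hf : ∀ x, 0 ≤ f x)
    (C l : ℝ) (hC : 0 < C) (hl : 0 < l) (hs : ∑ᶠ D ∈ 𝒟, f D ≤ C * 𝒟.ncard) :
    ({D : X | D ∈ 𝒟 ∧ l * C ≤ f D}.ncard : ℝ) ≤ l⁻¹ * 𝒟.ncard := by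
  classical
  obtain ⟨T, rfl⟩ : ∃ T : Finset X, (T : Set X) = 𝒟 := ⟨h𝒟.toFinset, h𝒟.coe_toFinset⟩
  rw [finsum_mem_coe_finset, Set.ncard_coe_finset] at hs
  have h1 : {D : X | D ∈ (T : Set X) ∧ l * C ≤ f D} = ((T.filter fun D => l * C ≤ f D : Finset X) : Set X) := by
    ext D
    simp
  rw [h1, Set.ncard_coe_finset, Set.ncard_coe_finset]
  have h2 : ((T.filter fun D => l * C ≤ f D).card : ℝ) * (l * C) ≤ ∑ D ∈ T, f D := by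
    calc ((T.filter fun D => l * C ≤ f D).card : ℝ) * (l * C)
        = ∑ _D ∈ T.filter (fun D => l * C ≤ f D), (l * C) := by
          rw [Finset.sum_const, nsmul_eq_mul]
      _ ≤ ∑ D ∈ T.filter (fun D => l * C ≤ f D), f D :=
          Finset.sum_le_sum fun D hD => (Finset.mem_filter.1 hD).2
      _ ≤ ∑ D ∈ T, f D :=
          Finset.sum_le_sum_of_subset_of_nonneg (Finset.filter_subset _ _) fun D _ _ => hf D
  have h3 := h2.trans hs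
  rw [inv_mul_eq_div, le_div_iff₀ hl]
  have h4 : ((T.filter fun D => l * C ≤ f D).card : ℝ) * l * C ≤ T.card * C := by
    linarith
  exact le_of_mul_le_mul_right h4 hC

private theorem mrk2 (p : ℕ) (hp : p.Prime) (d : ℕ) (l : ℝ) (_hl : 0 < l) : ∃ k : ℕ, 1 ≤ k ∧
    p * l ^ 2 * (2 + ((k + 1) * (p - 1) : ℕ) * (p : ℝ) ^ d) * (2 + (k * (p - 1) : ℕ) * (p : ℝ) ^ d) ≤
      (p : ℝ) ^ k := by
  have hp1 : (1 : ℝ) < p := by exact_mod_cast hp.one_lt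
  have hp0 : (0 : ℝ) < p := by linarith
  obtain ⟨A, hA⟩ : ∃ A : ℝ, A = 2 + p * (p : ℝ) ^ d := ⟨_, rfl⟩
  have hpd : (0 : ℝ) < (p : ℝ) ^ d := pow_pos hp0 d
  have hA0 : 0 < A := by
    rw [hA]
    positivity
  obtain ⟨B, hB⟩ : ∃ B : ℝ, B = p * l ^ 2 * A ^ 2 := ⟨_, rfl⟩
  have hB0 : 0 ≤ B := by
    rw [hB]
    positivity
  have ht := tendsto_pow_const_div_const_pow_of_one_lt 2 hp1
  have hpos : (0 : ℝ) < 1 / (B * p + 1) := by positivity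
  have hev := (ht.eventually (gt_mem_nhds hpos)).and (eventually_ge_atTop 2)
  obtain ⟨n, hn, hn2⟩ := hev.exists
  obtain ⟨k, rfl⟩ : ∃ k, n = k + 1 := ⟨n - 1, by omega⟩
  refine ⟨k, by omega, ?_⟩
  have hpn : (0 : ℝ) < (p : ℝ) ^ (k + 1) := pow_pos hp0 _
  rw [div_lt_div_iff₀ hpn (by positivity), one_mul, pow_succ (p : ℝ) k] at hn
  have h1 : ((k + 1 : ℕ) : ℝ) ^ 2 * B ≤ (p : ℝ) ^ k := by
    have h2 : ((k + 1 : ℕ) : ℝ) ^ 2 * B * p ≤ (p : ℝ) ^ k * p := by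
      have h3 : (0 : ℝ) ≤ ((k + 1 : ℕ) : ℝ) ^ 2 := by positivity
      nlinarith
    exact le_of_mul_le_mul_right h2 hp0
  refine le_trans ?_ h1
  have hk1 : ((((k + 1) * (p - 1) : ℕ) : ℕ) : ℝ) ≤ ((k + 1 : ℕ) : ℝ) * p := by
    rw [Nat.cast_mul]
    refine mul_le_mul_of_nonneg_left ?_ (by positivity)
    exact_mod_cast Nat.sub_le p 1
  have hk2 : (((k * (p - 1) : ℕ) : ℕ) : ℝ) ≤ ((k + 1 : ℕ) : ℝ) * p := by
    refine le_trans ?_ hk1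
    exact_mod_cast Nat.mul_le_mul_right _ (Nat.le_succ k)
  have hk0 : (1 : ℝ) ≤ ((k + 1 : ℕ) : ℝ) := by
    push_cast
    have : (0 : ℝ) ≤ k := Nat.cast_nonneg k
    linarith
  have h4 : ∀ x : ℝ, x ≤ ((k + 1 : ℕ) : ℝ) * p → 2 + x * (p : ℝ) ^ d ≤ ((k + 1 : ℕ) : ℝ) * A := by
    intro x hx
    rw [hA]
    have h5 : x * (p : ℝ) ^ d ≤ ((k + 1 : ℕ) : ℝ) * p * (p : ℝ) ^ d :=
      mul_le_mul_of_nonneg_right hx hpd.le
    nlinarith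
  have h6 := h4 _ hk1
  have h7 := h4 _ hk2
  have h8 : (0 : ℝ) ≤ 2 + ((k * (p - 1) : ℕ) : ℝ) * (p : ℝ) ^ d := by positivity
  have h9 : (0 : ℝ) ≤ ((k + 1 : ℕ) : ℝ) * A := by positivity
  calc p * l ^ 2 * (2 + ((k + 1) * (p - 1) : ℕ) * (p : ℝ) ^ d) * (2 + (k * (p - 1) : ℕ) * (p : ℝ) ^ d)
      = p * l ^ 2 * ((2 + ((k + 1) * (p - 1) : ℕ) * (p : ℝ) ^ d) *
          (2 + (k * (p - 1) : ℕ) * (p : ℝ) ^ d)) := by ring
    _ ≤ p * l ^ 2 * ((((k + 1 : ℕ) : ℝ) * A) * (((k + 1 : ℕ) : ℝ) * A)) := by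
        refine mul_le_mul_of_nonneg_left ?_ (by positivity)
        exact mul_le_mul h6 h7 h8 h9
    _ = ((k + 1 : ℕ) : ℝ) ^ 2 * B := by
        rw [hB]
        ring

theorem tMrk : S_Mrk :=
  ⟨fun X 𝒟 h𝒟 f hf C l hC hl hs => mrk1 X 𝒟 h𝒟 f hf C l hC hl hs,
    fun p hp d l hl => mrk2 p hp d l hl⟩

end Pool.Agent.MP72P
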