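import Pool.Agent.Lib.MP_72e2e6_nt.P3.E.SpecB

/-!
# MP_72e2e6_nt, theorem T3p, part E: the criterion for one `D`
-/

set_option autoImplicit false

namespace Pool.Agent.MP72P

open WeierstrassCurve
open Pool.Agent.MP72W (pmap)
open Pool.Agent.MP72V

open scoped Classical

private theorem onv_nsmul0 {K S L M : Type} [Field K] (W : WeierstrassCurve K) [Field S] [Field L]
    [Field M] [Algebra K S] [Algebra K L] [Algebra K M] [Algebra S L] [Algebra S M]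
    [IsScalarTower K S L] [IsScalarTower K S M] [dL : DecidableEq L] [dM : DecidableEq M]
    (f : L →ₐ[S] M) (n : ℕ) (P : (W⁄L).toAffine.Point) : pmap W f (n • P) = n • pmap W f P := by
  have h1 : dL = fun a b => Classical.propDecidable (a = b) := Subsingleton.elim _ _
  have h2 : dM = fun a b => Classical.propDecidable (a = b) := Subsingleton.elim _ _
  subst h1 h2
  exact AddMonoidHom.map_nsmul _ _ _

private theorem onv_ord {K L : Type} [Field K] (W : WeierstrassCurve K) [Field L]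
    [Algebra K L] [dL : DecidableEq L] (Q : (W⁄L).toAffine.Point) :
    addOrderOf Q = @addOrderOf _ (@Affine.Point.instAddCommGroup L _ (W⁄L).toAffine
      fun a b => Classical.propDecidable (a = b)).toAddGroup.toSubNegMonoid.toAddMonoid Q := by
  have h1 : dL = fun a b => Classical.propDecidable (a = b) := Subsingleton.elim _ _
  subst h1
  rfl

private theorem onv_isR {p k : ℕ} {K L : Type} [Field K] {W : WeierstrassCurve K} [Field L]
    [Algebra K L] [dL : DecidableEq L] {n : ℕ} {Q : Pt p W k L}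
    (h : letI I : DecidableEq L := fun a b => Classical.propDecidable (a = b)
      IsR p W k (n • Q)) : IsR p W k (n • Q) := by
  have h1 : dL = fun a b => Classical.propDecidable (a = b) := Subsingleton.elim _ _
  subst h1
  exact h

private theorem onv_mod {Λ : Type} [CommRing Λ] {N : ℕ} (hN : ((N : ℕ) : Λ) = 0) (m : ℕ) :
    ((m % N : ℕ) : Λ) = (m : Λ) := by
  conv_rhs => rw [← Nat.div_add_mod m N]
  rw [Nat.cast_add, Nat.cast_mul, hN, zero_mul, zero_add]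

private theorem onv_hom {Λ : Type} [CommRing Λ] {N : ℕ} [NeZero N] (hN : ((N : ℕ) : Λ) = 0) :
    ∃ F : ZMod N →+* Λ, ∀ x, F x = ((x.val : ℕ) : Λ) := by
  refine ⟨⟨⟨⟨fun x => ((x.val : ℕ) : Λ), ?_⟩, fun a b => ?_⟩, ?_, fun a b => ?_⟩, fun x => rfl⟩
  · show (((1 : ZMod N).val : ℕ) : Λ) = 1
    rw [ZMod.val_one_eq_one_mod, onv_mod hN, Nat.cast_one]
  · show (((a * b : ZMod N).val : ℕ) : Λ) = _
    rw [ZMod.val_mul, onv_mod hN, Nat.cast_mul]
  · show (((0 : ZMod N).val : ℕ) : Λ) = 0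
    rw [ZMod.val_zero, Nat.cast_zero]
  · show (((a + b : ZMod N).val : ℕ) : Λ) = _
    rw [ZMod.val_add, onv_mod hN, Nat.cast_add]

private theorem onv_chr {p : ℕ} [Fact p.Prime] {G : Type} [Group G] [TopologicalSpace G]
    {ω : G → ZMod p} {m n : ℕ} {Λ : Type} [CommRing Λ] {π : Λ} (hL : LR p n π)
    (hc : ((p ^ m : ℕ) : Λ) = 0) {ψ : G → ZMod (p ^ m)} (hl : IsLocallyConstant ψ) (h1 : ψ 1 = 1)
    (hm : ∀ a b, ψ (a * b) = ψ a * ψ b)
    (hr : ∀ a, ∃ y, ψ a = ((ω a).val : ZMod (p ^ m)) + p * y) :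
    Chr π ω (fun g => ((ψ g).val : Λ)) := by
  have : NeZero (p ^ m) := ⟨pow_ne_zero _ (Fact.out : p.Prime).ne_zero⟩
  obtain ⟨F, hF⟩ := onv_hom hc
  obtain ⟨z, hz⟩ := hL.pdv
  refine ⟨hl.comp fun x => ((x.val : ℕ) : Λ), ?_, fun a b => ?_, fun a => ?_⟩
  · show ((ψ 1).val : Λ) = 1
    rw [← hF, h1, map_one]
  · show ((ψ (a * b)).val : Λ) = ((ψ a).val : Λ) * ((ψ b).val : Λ)
    rw [← hF, ← hF, ← hF, hm, map_mul]
  · obtain ⟨y, hy⟩ := hr a
    refine ⟨z * F y, ?_⟩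
    show ((ψ a).val : Λ) = _
    rw [← hF, hy, map_add, map_mul, map_natCast, map_natCast, hz, mul_assoc]

private theorem onv_h1 {p : ℕ} {G : Type} [Group G] [TopologicalSpace G] {h : G → ZMod p}
    (hh : HomP p h) : h 1 = 0 := by
  have h1 := hh.add 1 1
  rw [mul_one] at h1
  exact left_eq_add.1 h1

private theorem onv_tw (hLrb : S_Lrb) {p : ℕ} [Fact p.Prime] {n : ℕ} {Λ : Type} [CommRing Λ]
    {π : Λ} (hL : LR p n π) {G : Type} [Group G] [TopologicalSpace G] {ω : G → ZMod p}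
    {ψ : G → Λ} (hψ : Chr π ω ψ) {h : G → ZMod p} (hh : HomP p h) : Chr π ω (tw π ψ h) := by
  obtain ⟨-, -, ⟨hz0, hza⟩, -, -, -, -, -, h8, -⟩ := hLrb p n Λ π hL
  refine ⟨?_, ?_, fun a b => ?_, fun a => ?_⟩
  · exact hψ.loc.mul (hh.loc.comp (zt π))
  · unfold tw
    rw [hψ.one, onv_h1 hh, hz0, mul_one]
  · unfold tw
    rw [hψ.mul, hh.add, hza]
    ring
  · obtain ⟨y, hy⟩ := hψ.red a
    obtain ⟨z, hz⟩ := h8 (h a)
    refine ⟨y - ψ a * (((h a).val : ℕ) + π * z), ?_⟩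
    unfold tw
    linear_combination hy - ψ a * hz

private theorem onv_lt {n a b X Y q : ℕ} (h1 : n * (a * b) ≤ X * Y) (h2 : X * Y < q * (a * b)) :
    n < q :=
  lt_of_mul_lt_mul_right (lt_of_le_of_lt h1 h2) (Nat.zero_le _)

/-- **OneV**. The criterion for one `D`. -/
theorem tOneV (hLrb : S_Lrb) (hLin : S_Lin2) (_hRes : S_Res) (_hHas : S_Has) (hHst : S_Hst)
    (hRgo : S_Rgo) (_hIt : S_It) (hVSr : S_VSr) (hDsc : S_DscV) (hVS : S_VS) (hFS : S_FS)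
    (hFsh : S_FshV) : S_OneV := by
  intro p hp hp2 K _ _ hG W hW hOd J av α h₀ hHS ι T t w₀ d e hLT y₀ hOk D hDm hDx k hk Q hQ ψ
    hψl hψ1 hψm hψr hψQ hUn hWu hLo hEn Λ₁ _ π₁ φ₁ hΛ₁ Λ₂ _ π₂ φ₂ hΛ₂ hlt
  have hk0 : NeZero (p ^ k) := ⟨pow_ne_zero _ hp.out.ne_zero⟩
  have hk1 : NeZero (p ^ (k + 1)) := ⟨pow_ne_zero _ hp.out.ne_zero⟩
  obtain ⟨-, -, -, -, -, -, hom, hh2, -, -, -, -, -, hhom, -, -⟩ := hHst p K hG J av α h₀ hHS
  obtain ⟨hrc, -, -, -, hrh, -, -⟩ := hRgo p K hG J av α h₀ hHS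
  have hSD : HomP p (hS p av α D) := hhom D hDm
  have hhDe : ∀ σ, hD p D σ = hS p av α D (rG p av α σ) := fun σ => (hrh D hDm σ).symm
  have hhD : HomP p (hD p D) := by
    have he : hD p D = hS p av α D ∘ rG p av α := funext hhDe
    refine ⟨?_, fun a b => ?_⟩
    · rw [he]
      exact hSD.loc.comp_continuous hrc
    · rw [hhDe, hhDe, hhDe, map_mul, hSD.add]
  obtain ⟨hR0, hord, -, -⟩ := hVSr p hp2 K W hW (Kgs K) k Q hQ
  have hR : IsR p W k (p • Q) := onv_isR hR0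
  -- the two characters
  have hc1 : Chr π₁ (omS p av α) (fun g => ((ψ g).val : Λ₁)) :=
    onv_chr hΛ₁.lr hΛ₁.ck hψl hψ1 hψm hψr
  let ψ' : GS p av α → ZMod (p ^ k) := fun g => ((ψ g).val : ZMod (p ^ k))
  have hdv : p ^ k ∣ p ^ (k + 1) := pow_dvd_pow p (Nat.le_succ k)
  have hψ'c : ∀ g, ψ' g = ZMod.castHom hdv (ZMod (p ^ k)) (ψ g) := by
    intro g
    rw [ZMod.castHom_apply, ← ZMod.natCast_val]
  have hψ'l : IsLocallyConstant ψ' := hψl.comp fun x => ((x.val : ℕ) : ZMod (p ^ k))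
  have hψ'1 : ψ' 1 = 1 := by rw [hψ'c, hψ1, map_one]
  have hψ'm : ∀ a b, ψ' (a * b) = ψ' a * ψ' b := by
    intro a b
    rw [hψ'c, hψ'c, hψ'c, hψm, map_mul]
  have hψ'r : ∀ a, ∃ y, ψ' a = ((omS p av α a).val : ZMod (p ^ k)) + p * y := by
    intro a
    obtain ⟨y, hy⟩ := hψr a
    refine ⟨ZMod.castHom hdv (ZMod (p ^ k)) y, ?_⟩
    rw [hψ'c, hy, map_add, map_mul, map_natCast, map_natCast]
  have hψ'Q : ∀ σ : Gal(Kgs K/K), pmap (fr p W k) (σ : Kgs K →ₐ[K] Kgs K) (p • Q) =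
      (ψ' (rG p av α σ)).val • (p • Q) := by
    intro σ
    rw [onv_nsmul0, hψQ σ, smul_comm p]
    have h1 : (ψ (rG p av α σ)).val • (p • Q) = (p * (ψ (rG p av α σ)).val) • Q := by
      rw [mul_comm, mul_smul]
    have h2 : (ψ' (rG p av α σ)).val • (p • Q) = (p * (ψ' (rG p av α σ)).val) • Q := by
      rw [mul_comm, mul_smul]
    have h3 : (ψ' (rG p av α σ)).val = (ψ (rG p av α σ)).val % p ^ k := by
      show ((((ψ (rG p av α σ)).val : ℕ) : ZMod (p ^ k))).val = _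
      rw [ZMod.val_natCast]
    rw [h1, h2, nsmul_eq_nsmul_iff_modEq, onv_ord, hord, h3]
    have h4 := (Nat.ModEq.mul_left' p (Nat.mod_modEq (ψ (rG p av α σ)).val (p ^ k))).symm
    have h5 : p * p ^ k = p ^ (k + 1) := (pow_succ' p k).symm
    simpa only [h5] using h4
  have hΛe : (fun g => ((ψ' g).val : Λ₂)) = fun g => ((ψ g).val : Λ₂) := by
    funext g
    show ((((ψ g).val : ZMod (p ^ k)).val : ℕ) : Λ₂) = _
    rw [ZMod.val_natCast, onv_mod hΛ₂.ck]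
  -- the kernel is finite
  have hfin : (Ker (rL (tw π₁ (fun g => ((ψ g).val : Λ₁)) (hS p av α D))) (DS p av α ι)).Finite := by
    have hf : Finite Λ₁ := (hLrb p _ Λ₁ π₁ hΛ₁.lr).1
    obtain ⟨-, -, -, -, -, -, -, h8, -⟩ := hLin p (GS p av α) J d (omS p av α) (DS p av α ι) _ hom
      hh2 hOk _ Λ₁ π₁ hΛ₁.lr _ (onv_tw hLrb hΛ₁.lr hc1 hSD)
    exact Set.Finite.of_finite_image (Set.toFinite _) h8.injOn
  have h1 := hVS p hp2 K hG W hW hOd J av α h₀ hHS ι D hDm hDx k hk Q hQ ψ hψl hψ1 hψm hψr hψQ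
    hUn hLo Λ₁ π₁ φ₁ hΛ₁ hfin
  have h2 := hFS p hp2 K hG W hW J av α h₀ hHS ι T t w₀ d e hLT y₀ hOk D hDm k hk (p • Q) hR
    ψ' hψ'l hψ'1 hψ'm hψ'r hψ'Q hWu Λ₂ π₂ φ₂ hΛ₂
  rw [hΛe] at h2
  have h3 := hDsc p hp2 K W hW hOd (hD p D) hhD k (p • Q) hR (fun σ => ψ' (rG p av α σ)) hψ'Q
    _ _ _ _ h1 h2
  obtain ⟨h4, h5⟩ := hFsh p K W (hD p D) hhD k hk fun n z P hz hne =>
    onv_lt (h3 n z P hz hne) hlt
  exact ⟨hEn h5, h4⟩

end Pool.Agent.MP72P
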