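import Pool.Agent.Lib.MP_72e2e6_nt.P3.E.Spec

/-!
# MP_72e2e6_nt, theorem T3p, part E: PsiV, the points `Q` and the characters `ψ`
-/

namespace Pool.Agent.MP72P

set_option autoImplicit false

open WeierstrassCurve IntermediateField
open Pool.Agent.MP72W (pmap)
open Pool.Agent.MP72V

open scoped Classical

section

variable {K L : Type} [Field K] [Field L] [Algebra K L] (W : WeierstrassCurve K)

private theorem ps_congr (f g : L →ₐ[K] L) {x y : L}
    (h : (W⁄L).toAffine.Nonsingular x y) (hx : f x = g x) (hy : f y = g y) :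
    pmap W f (Affine.Point.some x y h) = pmap W g (Affine.Point.some x y h) := by
  unfold pmap
  rw [Affine.Point.map_some, Affine.Point.map_some, Affine.Point.some.injEq]
  exact ⟨hx, hy⟩

private theorem ps_one (P : (W⁄L).toAffine.Point) :
    pmap W ((1 : Gal(L/K)) : L →ₐ[K] L) P = P := by
  cases P with
  | zero => rfl
  | some x y h =>
    unfold pmap
    rw [Affine.Point.map_some, Affine.Point.some.injEq]
    exact ⟨rfl, rfl⟩

private theorem ps_mul (σ τ : Gal(L/K)) (P : (W⁄L).toAffine.Point) :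
    pmap W ((σ * τ : Gal(L/K)) : L →ₐ[K] L) P =
      pmap W (σ : L →ₐ[K] L) (pmap W (τ : L →ₐ[K] L) P) := by
  cases P with
  | zero => rfl
  | some x y h =>
    unfold pmap
    rw [Affine.Point.map_some, Affine.Point.map_some, Affine.Point.map_some,
      Affine.Point.some.injEq]
    exact ⟨rfl, rfl⟩

private theorem ps_loc [IsGalois K L] (P : (W⁄L).toAffine.Point) :
    IsLocallyConstant fun σ : Gal(L/K) => pmap W (σ : L →ₐ[K] L) P := by
  have hop : ∀ (σ : Gal(L/K)) (x : L), IsOpen {τ : Gal(L/K) | τ x = σ x} := by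
    intro σ x
    have h1 : IsOpen (MulAction.stabilizer Gal(L/K) x : Set Gal(L/K)) :=
      stabilizer_isOpen_of_isIntegral x
    have h2 := h1.preimage (continuous_const_mul σ⁻¹)
    have h3 : {τ : Gal(L/K) | τ x = σ x} = (fun τ => σ⁻¹ * τ) ⁻¹'
        (MulAction.stabilizer Gal(L/K) x : Set Gal(L/K)) := by
      ext τ
      rw [Set.mem_preimage, SetLike.mem_coe, MulAction.mem_stabilizer_iff, mul_smul,
        inv_smul_eq_iff]
      exact Iff.rfl
    rw [h3]
    exact h2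
  rw [IsLocallyConstant.iff_exists_open]
  intro σ
  cases P with
  | zero => exact ⟨Set.univ, isOpen_univ, trivial, fun τ _ => rfl⟩
  | some x y h =>
    refine ⟨{τ | τ x = σ x} ∩ {τ | τ y = σ y}, (hop σ x).inter (hop σ y), ⟨rfl, rfl⟩, ?_⟩
    rintro τ ⟨hx, hy⟩
    have hx' : τ x = σ x := hx
    have hy' : τ y = σ y := hy
    exact ps_congr W (τ : L →ₐ[K] L) (σ : L →ₐ[K] L) h hx' hy'

/-- a homomorphism after the restriction homomorphism -/
private theorem ps_rst {S M : Type} [Field S] [Field M] [Algebra K S] [Algebra K M] [Algebra S M]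
    [IsScalarTower K S M] (ι : L →ₐ[K] M) (g : Gal(M/S)) (σ : Gal(L/K))
    (h : ∀ x, g (ι x) = ι (σ x)) (P : (W⁄L).toAffine.Point) :
    pmap W (g : M →ₐ[S] M) (pmap W ι P) = pmap W ι (pmap W (σ : L →ₐ[K] L) P) := by
  cases P with
  | zero => rfl
  | some x y hh =>
    unfold pmap
    rw [Affine.Point.map_some, Affine.Point.map_some, Affine.Point.map_some,
      Affine.Point.map_some, Affine.Point.some.injEq]
    exact ⟨h x, h y⟩

end

/-- multiples of an element of finite order -/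
private theorem ps_nsm {G : Type} [AddCommGroup G] {R : G} {N : ℕ} (hR : addOrderOf R = N)
    (a b : ℕ) : a • R = b • R ↔ (a : ZMod N) = (b : ZMod N) := by
  rw [ZMod.natCast_eq_natCast_iff, ← hR]
  exact nsmul_eq_nsmul_iff_modEq

private theorem ps_inj {G : Type} [AddCommGroup G] {R : G} {N : ℕ} [NeZero N]
    (hR : addOrderOf R = N) {a b : ZMod N} (h : a.val • R = b.val • R) : a = b := by
  rw [ps_nsm hR, ZMod.natCast_zmod_val, ZMod.natCast_zmod_val] at h
  exact h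

/-- the map on points of an embedding is injective -/
private theorem ps_pinj {K L M : Type} [Field K] [Field L] [Field M] [Algebra K L] [Algebra K M]
    (W : WeierstrassCurve K) (ι : L →ₐ[K] M) {P Q : (W⁄L).toAffine.Point}
    (h : pmap W ι P = pmap W ι Q) : P = Q :=
  Affine.Point.map_injective (W' := W.toAffine) (f := ι) h

private theorem ps_core (hI : S_It) (hR : S_Rk) (hVSr : S_VSr) {p : ℕ} [Fact p.Prime]
    (hp2 : p ≠ 2) {K L : Type} [Field K] [CharP K p] [Field L] [Algebra K L] [IsSepClosed L]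
    [IsGalois K L] (I : DecidableEq L) (W : WeierstrassCurve K) (hW : IsNf W) (hOd : Od p W)
    (m : Gal(L/K) → ZMod p) (T : Pt p W 0 L) (hT0 : T ≠ 0) (hTp : p • T = 0)
    (hTσ : ∀ σ : Gal(L/K), pmap (fr p W 0) (σ : L →ₐ[K] L) T = (m σ).val • T) (k : ℕ) :
    ∃ (Q : Pt p W k L) (ψ₀ : Gal(L/K) → ZMod (p ^ (k + 1))), Vn p W k Q = T ∧ IsQ p W k Q ∧
      IsLocallyConstant ψ₀ ∧ ψ₀ 1 = 1 ∧ (∀ σ τ, ψ₀ (σ * τ) = ψ₀ σ * ψ₀ τ) ∧
      (∀ σ, ∃ y, ψ₀ σ = ((m σ).val : ZMod (p ^ (k + 1))) + p * y) ∧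
      (∀ σ : Gal(L/K), pmap (fr p W k) (σ : L →ₐ[K] L) Q = (ψ₀ σ).val • Q) ∧
      ∀ σ : Gal(L/K), pmap (fr p W k) (σ : L →ₐ[K] L) Q = Q → ψ₀ σ = 1 := by
  obtain rfl : I = fun a b => Classical.propDecidable (a = b) := Subsingleton.elim _ _
  have hpN : NeZero (p ^ (k + 1)) := ⟨pow_ne_zero _ (Fact.out : p.Prime).ne_zero⟩
  obtain ⟨-, -, -, -, -, hI6, -, -, -, -⟩ := hI p hp2 K W hW L
  obtain ⟨Q, hQ⟩ := ((hR p hp2 K W hW L).1 hOd).1 k T
  have hIsQ : IsQ p W k Q := ⟨by rw [hQ]; exact hT0, by rw [hQ]; exact hTp⟩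
  obtain ⟨-, hord, hX, -⟩ := hVSr p hp2 K W hW L k Q hIsQ
  have hVσ : ∀ σ : Gal(L/K), Vn p W k (pmap (fr p W k) (σ : L →ₐ[K] L) Q) =
      ((m σ).val : ℤ) • Vn p W k Q := by
    intro σ
    rw [← ((hI6 k K L (σ : L →ₐ[K] L)).2 Q), hQ, hTσ, natCast_zsmul]
  choose ψ₀ hψQ hψy using fun σ : Gal(L/K) => hX _ _ (hVσ σ)
  have hval1 : ((1 : ZMod (p ^ (k + 1))).val • Q : Pt p W k L) = Q := by
    have h1 : ((1 : ZMod (p ^ (k + 1))).val • Q : Pt p W k L) = (1 : ℕ) • Q := by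
      rw [ps_nsm hord, ZMod.natCast_zmod_val, Nat.cast_one]
    rw [h1, one_nsmul]
  have hone : ∀ σ : Gal(L/K), pmap (fr p W k) (σ : L →ₐ[K] L) Q = Q → ψ₀ σ = 1 := by
    intro σ hσ
    apply ps_inj hord
    rw [← hψQ σ, hval1]
    exact hσ
  refine ⟨Q, ψ₀, hQ, hIsQ, ?_, hone 1 (ps_one (fr p W k) Q), ?_, ?_, hψQ, hone⟩
  · have h1 := ps_loc (K := K) (fr p W k) Q
    rw [IsLocallyConstant.iff_exists_open] at h1 ⊢
    intro σ
    obtain ⟨U, hU, hσ, hUU⟩ := h1 σ
    refine ⟨U, hU, hσ, fun τ hτ => ?_⟩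
    apply ps_inj hord
    rw [← hψQ τ, ← hψQ σ]
    exact hUU τ hτ
  · intro σ τ
    apply ps_inj hord
    rw [← hψQ (σ * τ), ps_mul, hψQ τ, map_nsmul, hψQ σ, ← mul_nsmul', ps_nsm hord,
      Nat.cast_mul, ZMod.natCast_zmod_val, ZMod.natCast_zmod_val, ZMod.natCast_zmod_val, mul_comm]
  · intro σ
    obtain ⟨y, hy⟩ := hψy σ
    exact ⟨y, by rw [hy, Int.cast_natCast]⟩

theorem tPsiV (_ : MP72V.S_Bas) (_ : MP72V.S_Fr) (_ : S_Vh) (_ : S_Vs) (hI : S_It) (hR : S_Rk)
    (hVSr : S_VSr) (hHas : S_Has) (hRes : S_Res) (hOnr : S_Onr) (hPsf : S_Psf) : S_PsiV := by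
  intro p _ hp2 K _ _ hK W hW hOd J av α h₀ hS T hT0 hTp hTσ k hUN
  obtain ⟨Q, ψ₀, hQ, hIsQ, hloc, hone, hmul, hred, hψQ, hψ1⟩ :=
    ps_core hI hR hVSr hp2 _ W hW hOd (omc p α) T hT0 hTp hTσ k
  have hα0 : α ≠ 0 := by
    rintro rfl
    have h1 := hS.al
    rw [zero_pow (Nat.sub_ne_zero_of_lt (Fact.out : p.Prime).one_lt)] at h1
    exact hS.h0 ((map_eq_zero _).1 h1.symm)
  have hαm : α ∈ OmS p av α := by
    have h1 : Twr p (OS av) K (Kgs K) α K⟮α⟯ := Twr.bot
    exact (le_sSup (show K⟮α⟯ ∈ {M | Twr p (OS av) K (Kgs K) α M} from h1))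
      (mem_adjoin_simple_self K α)
  have hunr : Unr p av (fun σ => ψ₀ σ - 1) := by
    intro v hv hva
    obtain ⟨ι⟩ : Nonempty (Kgs K →ₐ[K] Kvs v) := ⟨IsSepClosed.lift⟩
    refine ⟨ι, fun g hg => ?_⟩
    have hres := hRes p K (Kgs K) v.Completion (Kvs v) ι
    -- the restriction of a geometric automorphism fixes `α`
    have hom : ∀ g' : Gal(Kvs v/v.Completion), IsGeo p g' →
        omc p α (rsH (M := v.Completion) ι g') = 1 := by
      intro g' hg'
      have hgα : g' (ι α) = ι α := by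
        have h1 : ι α ∈ Knr p v := (hOnr p K hK J av α h₀ hS v hv hva ι).1 α hαm
        have h2 : Knr p v ≤ IntermediateField.fixedField (Subgroup.zpowers g') := by
          unfold Knr
          rw [adjoin_le_iff]
          intro x hx
          rw [SetLike.mem_coe, mem_fixedField_iff]
          intro f hf
          obtain ⟨n, rfl⟩ := Subgroup.mem_zpowers_iff.1 hf
          have h3 : g' ∈ MulAction.stabilizer Gal(Kvs v/v.Completion) x := hg' x hx
          exact Subgroup.zpow_mem _ h3 n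
        exact (mem_fixedField_iff _ _).1 (h2 h1) g' (Subgroup.mem_zpowers g')
      have hσα : (rsH (M := v.Completion) ι g') α = α := by
        have h1 : ι ((rsH (M := v.Completion) ι g') α) = ι α :=
          (hres.2.1 g' α).symm.trans hgα
        exact ι.injective h1
      have h1 := (hHas p K (Kgs K) α h₀ hα0 hS.al).1.2 (rsH (M := v.Completion) ι g')
      rw [hσα] at h1
      have h2 : op (Kgs K) (omc p α (rsH (M := v.Completion) ι g')) = 1 := by
        have h3 : op (Kgs K) (omc p α (rsH (M := v.Completion) ι g')) * α = 1 * α := by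
          rw [← h1, one_mul]
        exact mul_right_cancel₀ hα0 h3
      have hcL : CharP (Kgs K) p :=
        charP_of_injective_algebraMap (algebraMap K (Kgs K)).injective p
      have h4 : ∀ c : ZMod p, op (Kgs K) c = ZMod.castHom (dvd_refl p) (Kgs K) c := by
        intro c
        unfold op
        rw [ZMod.castHom_apply, ZMod.natCast_val]
      apply (ZMod.castHom (dvd_refl p) (Kgs K)).injective
      rw [← h4, h2, map_one]
    obtain ⟨-, -, -, -, -, hI6, -, -, -, -⟩ := hI p hp2 K W hW (Kgs K)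
    have hfix := hUN v hv hva (pmap (fr p W k) ι Q) (fun g' hg' => by
      rw [← ((hI6 k K (Kvs v) ι).2 Q), hQ,
        ps_rst (fr p W 0) ι g' _ (hres.2.1 g') T, hTσ, hom g' hg', ZMod.val_one, one_nsmul]) g hg
    rw [ps_rst (fr p W k) ι g _ (hres.2.1 g) Q] at hfix
    have h1 := ps_pinj (fr p W k) ι hfix
    show ψ₀ (rsH (M := v.Completion) ι g) - 1 = 0
    rw [hψ1 _ h1, sub_self]
  obtain ⟨ψ, hψl, hψ1', hψm, hψr, hψe⟩ :=
    hPsf p K hK J av α h₀ hS (k + 1) ψ₀ hloc hone hmul hred hunr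
  exact ⟨Q, ψ, hQ, hIsQ, hψl, hψ1', hψm, hψr, fun σ => by rw [hψQ σ, hψe σ]⟩

end Pool.Agent.MP72P
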