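import Pool.Agent.Lib.MP_72e2e6_nt.P3.E.Spec

/-!
# MP_72e2e6_nt, theorem T3p, part E: ShgV, the group of the crossed homomorphisms `ShaV` (helper69)
-/

namespace Pool.Agent.MP72P

set_option autoImplicit false

open WeierstrassCurve
open Pool.Agent.MP72W (pmap)
open Pool.Agent.MP72V

open scoped Classical

section pm

variable {K S L M : Type} [Field K] (W : WeierstrassCurve K) [Field S] [Field L] [Field M]
  [Algebra K S] [Algebra K L] [Algebra K M] [Algebra S L] [Algebra S M]
  [IsScalarTower K S L] [IsScalarTower K S M]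

private theorem sg_add (I : DecidableEq L) (J : DecidableEq M) (f : L →ₐ[S] M)
    (P Q : (W⁄L).toAffine.Point) : pmap W f (P + Q) = pmap W f P + pmap W f Q := by
  obtain rfl : I = fun a b => Classical.propDecidable (a = b) := Subsingleton.elim _ _
  obtain rfl : J = fun a b => Classical.propDecidable (a = b) := Subsingleton.elim _ _
  exact map_add (pmap W f) P Q

private theorem sg_zero (f : L →ₐ[S] M) : pmap W f (0 : (W⁄L).toAffine.Point) = 0 := rfl

private theorem sg_neg (f : L →ₐ[S] M)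
    (P : (W⁄L).toAffine.Point) : pmap W f (-P) = -pmap W f P :=
  map_neg (pmap W f) P

private theorem sg_sub (I : DecidableEq L) (J : DecidableEq M) (f : L →ₐ[S] M)
    (P Q : (W⁄L).toAffine.Point) : pmap W f (P - Q) = pmap W f P - pmap W f Q := by
  obtain rfl : I = fun a b => Classical.propDecidable (a = b) := Subsingleton.elim _ _
  obtain rfl : J = fun a b => Classical.propDecidable (a = b) := Subsingleton.elim _ _
  exact map_sub (pmap W f) P Q

private theorem sg_sum {ι : Type} [Fintype ι] (I : DecidableEq L) (J : DecidableEq M)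
    (f : L →ₐ[S] M) (P : ι → (W⁄L).toAffine.Point) :
    pmap W f (∑ i, P i) = ∑ i, pmap W f (P i) := by
  obtain rfl : I = fun a b => Classical.propDecidable (a = b) := Subsingleton.elim _ _
  obtain rfl : J = fun a b => Classical.propDecidable (a = b) := Subsingleton.elim _ _
  exact map_sum (pmap W f) P Finset.univ

private theorem sg_congr (f g : L →ₐ[K] M) {x y : L} (h : (W⁄L).toAffine.Nonsingular x y)
    (hx : f x = g x) (hy : f y = g y) :
    pmap W f (Affine.Point.some x y h) = pmap W g (Affine.Point.some x y h) := by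
  unfold pmap
  rw [Affine.Point.map_some, Affine.Point.map_some, Affine.Point.some.injEq]
  exact ⟨hx, hy⟩

omit [Algebra S L] [IsScalarTower K S L] in
private theorem sg_sq (f : L →ₐ[K] M) (s : L →ₐ[K] L) (t : M →ₐ[S] M)
    (hst : ∀ x, t (f x) = f (s x)) (P : (W⁄L).toAffine.Point) :
    pmap W f (pmap W s P) = pmap W t (pmap W f P) := by
  cases P with
  | zero => rfl
  | some x y h =>
    unfold pmap
    rw [Affine.Point.map_some, Affine.Point.map_some, Affine.Point.map_some,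
      Affine.Point.map_some, Affine.Point.some.injEq]
    exact ⟨(hst x).symm, (hst y).symm⟩

end pm

private theorem sg_alg1 {G : Type} [AddCommGroup G] (a b c d : G) :
    (a - b) + (c - d) = (a + c) - (b + d) := by abel

private theorem sg_alg2 {G : Type} [AddCommGroup G] (a b : G) : -(a - b) = -a - -b := by abel

private theorem sg_shift {G : Type} [AddCommGroup G] {p : ℕ} [Fact p.Prime] (f : ZMod p → G)
    (c : ZMod p) : ∑ i, f (i - c) = ∑ i, f i :=
  Equiv.sum_comp (Equiv.subRight c) f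

/-- the instance of decidable equality used in the definitions -/
private noncomputable abbrev sg_ins (K : Type) [Field K] : DecidableEq (SeparableClosure K) :=
  inferInstance

section sha

variable {p : ℕ} [Fact p.Prime] {K : Type} [Field K] (W : WeierstrassCurve K)
  (h : Gal(Kgs K/K) → ZMod p)

private theorem sg_iff (I : DecidableEq (Kgs K))
    (J : ∀ v : AbsoluteValue K ℝ, DecidableEq (Kvs v))
    (z : Gal(Kgs K/K) → ZMod p → (W⁄(Kgs K)).toAffine.Point) :
    ShaV W h z ↔ (IsLocallyConstant z ∧ (∀ σ, ∑ i, z σ i = 0) ∧ ∀ σ τ, z (σ * τ) =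
      z σ + tac W (h σ) (σ : Kgs K →ₐ[K] Kgs K) (z τ)) ∧
      ∀ v : AbsoluteValue K ℝ, v.IsNontrivial → ∀ ι : Kgs K →ₐ[K] Kvs v,
        ∃ Q : ZMod p → (W⁄(Kvs v)).toAffine.Point, ∑ i, Q i = 0 ∧
          ∀ (σ : Gal(Kgs K/K)) (τ : Gal(Kvs v/v.Completion)), (∀ x, τ (ι x) = ι (σ x)) →
            ∀ i, pmap W ι (z σ i) =
              pmap W (τ : Kvs v →ₐ[v.Completion] Kvs v) (Q (i - h σ)) - Q i := by
  obtain rfl : I = sg_ins K := Subsingleton.elim _ _
  obtain rfl : J = fun v : AbsoluteValue K ℝ => sg_ins v.Completion :=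
    funext fun v => Subsingleton.elim _ _
  exact ⟨fun h => ⟨⟨h.1.loc, h.1.sum, h.1.mul⟩, h.2⟩, fun h => ⟨⟨h.1.1, h.1.2.1, h.1.2.2⟩, h.2⟩⟩

omit h in
private theorem sg_loc (P : (W⁄(Kgs K)).toAffine.Point) :
    IsLocallyConstant fun σ : Gal(Kgs K/K) => pmap W (σ : Kgs K →ₐ[K] Kgs K) P := by
  have hop : ∀ (σ : Gal(Kgs K/K)) (x : Kgs K), IsOpen {τ : Gal(Kgs K/K) | τ x = σ x} := by
    intro σ x
    have h1 : IsOpen (MulAction.stabilizer Gal(Kgs K/K) x : Set Gal(Kgs K/K)) :=
      stabilizer_isOpen_of_isIntegral x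
    have h2 := h1.preimage (continuous_const_mul σ⁻¹)
    have h3 : {τ : Gal(Kgs K/K) | τ x = σ x} = (fun τ => σ⁻¹ * τ) ⁻¹'
        (MulAction.stabilizer Gal(Kgs K/K) x : Set Gal(Kgs K/K)) := by
      ext τ
      rw [Set.mem_preimage, SetLike.mem_coe, MulAction.mem_stabilizer_iff, mul_smul,
        inv_smul_eq_iff]
      exact Iff.rfl
    rw [h3]
    exact h2
  rw [IsLocallyConstant.iff_exists_open]
  intro σ
  cases P with
  | zero => exact ⟨Set.univ, isOpen_univ, trivial, fun τ _ => rfl⟩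
  | some x y h =>
    refine ⟨{τ | τ x = σ x} ∩ {τ | τ y = σ y}, (hop σ x).inter (hop σ y), ⟨rfl, rfl⟩, ?_⟩
    rintro τ ⟨hx, hy⟩
    have hx' : τ x = σ x := hx
    have hy' : τ y = σ y := hy
    exact sg_congr W (τ : Kgs K →ₐ[K] Kgs K) (σ : Kgs K →ₐ[K] Kgs K) h hx' hy'

end sha

theorem tShgV : S_ShgV := by
  intro p _ K _ W h hh
  have key : ∀ I : DecidableEq (Kgs K),
      ShaV W h (fun _ => 0) ∧
      (∀ z z', ShaV W h z → ShaV W h z' → ShaV W h (fun σ => z σ + z' σ)) ∧
      (∀ z, ShaV W h z → ShaV W h (fun σ => - z σ)) ∧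
      (∀ (n : ℕ) z, ShaV W h z → ShaV W h (fun σ => n • z σ)) ∧
      ∀ P : ZMod p → (W⁄(Kgs K)).toAffine.Point, ∑ i, P i = 0 →
        ShaV W h (fun σ => tac W (h σ) (σ : Kgs K →ₐ[K] Kgs K) P - P) := by
    intro I
    let J : ∀ v : AbsoluteValue K ℝ, DecidableEq (Kvs v) :=
      fun v a b => Classical.propDecidable (a = b)
    have hJ := sg_iff W h I J
    have h0 : ShaV W h (fun _ => 0) := by
      rw [hJ]
      refine ⟨⟨IsLocallyConstant.const 0, fun σ => ?_, fun σ τ => ?_⟩, fun v _ ι =>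
        ⟨0, ?_, fun σ τ _ i => ?_⟩⟩
      · exact Finset.sum_const_zero
      · funext i
        show (0 : (W⁄(Kgs K)).toAffine.Point) = 0 + pmap W (σ : Kgs K →ₐ[K] Kgs K) 0
        rw [sg_zero, add_zero]
      · exact Finset.sum_const_zero
      · show pmap W ι 0 = pmap W (τ : Kvs v →ₐ[v.Completion] Kvs v) 0 - 0
        rw [sg_zero, sg_zero, sub_zero]
    have hadd : ∀ z z', ShaV W h z → ShaV W h z' → ShaV W h (fun σ => z σ + z' σ) := by
      intro z z' hz hz'
      rw [hJ] at hz hz' ⊢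
      obtain ⟨⟨l1, s1, m1⟩, t1⟩ := hz
      obtain ⟨⟨l2, s2, m2⟩, t2⟩ := hz'
      refine ⟨⟨l1.comp₂ l2 (fun a b => a + b), fun σ => ?_, fun σ τ => ?_⟩, fun v hv ι => ?_⟩
      · show ∑ i, (z σ i + z' σ i) = 0
        rw [Finset.sum_add_distrib, s1, s2, add_zero]
      · funext i
        have e1 := congrFun (m1 σ τ) i
        have e2 := congrFun (m2 σ τ) i
        show z (σ * τ) i + z' (σ * τ) i = z σ i + z' σ i +
          pmap W (σ : Kgs K →ₐ[K] Kgs K) (z τ (i - h σ) + z' τ (i - h σ))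
        have e1' : z (σ * τ) i = z σ i + pmap W (σ : Kgs K →ₐ[K] Kgs K) (z τ (i - h σ)) := e1
        have e2' : z' (σ * τ) i = z' σ i + pmap W (σ : Kgs K →ₐ[K] Kgs K) (z' τ (i - h σ)) := e2
        rw [e1', e2', sg_add W I I]
        abel
      · obtain ⟨Q, q1, hQ⟩ := t1 v hv ι
        obtain ⟨Q', q2, hQ'⟩ := t2 v hv ι
        let _ := J v
        refine ⟨fun i => Q i + Q' i, ?_, fun σ τ hst i => ?_⟩
        · rw [Finset.sum_add_distrib, q1, q2, add_zero]
        · show pmap W ι (z σ i + z' σ i) = _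
          rw [sg_add W I (J v), sg_add W (J v) (J v), hQ σ τ hst, hQ' σ τ hst]
          exact sg_alg1 _ _ _ _
    have hneg : ∀ z, ShaV W h z → ShaV W h (fun σ => - z σ) := by
      intro z hz
      rw [hJ] at hz ⊢
      obtain ⟨⟨l1, s1, m1⟩, t1⟩ := hz
      refine ⟨⟨l1.comp (fun a => -a), fun σ => ?_, fun σ τ => ?_⟩, fun v hv ι => ?_⟩
      · show ∑ i, - z σ i = 0
        rw [Finset.sum_neg_distrib, s1, neg_zero]
      · funext i
        have e1 : z (σ * τ) i = z σ i + pmap W (σ : Kgs K →ₐ[K] Kgs K) (z τ (i - h σ)) :=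
          congrFun (m1 σ τ) i
        show - z (σ * τ) i = - z σ i + pmap W (σ : Kgs K →ₐ[K] Kgs K) (- z τ (i - h σ))
        rw [e1, sg_neg W]
        abel
      · obtain ⟨Q, q1, hQ⟩ := t1 v hv ι
        let _ := J v
        refine ⟨fun i => - Q i, ?_, fun σ τ hst i => ?_⟩
        · rw [Finset.sum_neg_distrib, q1, neg_zero]
        · show pmap W ι (- z σ i) = _
          rw [sg_neg W, sg_neg W, hQ σ τ hst]
          exact sg_alg2 _ _
    refine ⟨h0, hadd, hneg, ?_, ?_⟩
    · intro n z hz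
      induction n with
      | zero =>
        have e : (fun σ => (0 : ℕ) • z σ) = fun _ => 0 := funext fun σ => zero_smul ℕ (z σ)
        rw [e]
        exact h0
      | succ n ih =>
        have e : (fun σ => (n + 1) • z σ) = fun σ => n • z σ + z σ :=
          funext fun σ => succ_nsmul (z σ) n
        rw [e]
        exact hadd _ _ ih hz
    · intro P hP
      rw [hJ]
      refine ⟨⟨?_, fun σ => ?_, fun σ τ => ?_⟩, fun v hv ι => ?_⟩
      · rw [IsLocallyConstant.iff_exists_open]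
        intro σ
        obtain ⟨U, hU, hσU, hUh⟩ := (IsLocallyConstant.iff_exists_open _).1 hh.loc σ
        have hV : ∀ j : ZMod p, ∃ V : Set (Gal(Kgs K/K)), IsOpen V ∧ σ ∈ V ∧ ∀ τ ∈ V,
            pmap W (τ : Kgs K →ₐ[K] Kgs K) (P j) = pmap W (σ : Kgs K →ₐ[K] Kgs K) (P j) :=
          fun j => (IsLocallyConstant.iff_exists_open _).1 (sg_loc W (P j)) σ
        choose V hV hσV hVP using hV
        refine ⟨U ∩ ⋂ j, V j, hU.inter (isOpen_iInter_of_finite hV),
          ⟨hσU, Set.mem_iInter.2 hσV⟩, ?_⟩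
        rintro τ ⟨h1, h2⟩
        funext i
        show pmap W (τ : Kgs K →ₐ[K] Kgs K) (P (i - h τ)) - P i =
          pmap W (σ : Kgs K →ₐ[K] Kgs K) (P (i - h σ)) - P i
        rw [hUh τ h1, hVP _ τ (Set.mem_iInter.1 h2 _)]
      · show ∑ i, (pmap W (σ : Kgs K →ₐ[K] Kgs K) (P (i - h σ)) - P i) = 0
        rw [Finset.sum_sub_distrib, hP, sub_zero, ← sg_sum W I I,
          sg_shift, hP, sg_zero]
      · funext i
        show pmap W ((σ * τ : Gal(Kgs K/K)) : Kgs K →ₐ[K] Kgs K) (P (i - h (σ * τ))) - P i =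
          pmap W (σ : Kgs K →ₐ[K] Kgs K) (P (i - h σ)) - P i +
          pmap W (σ : Kgs K →ₐ[K] Kgs K)
            (pmap W (τ : Kgs K →ₐ[K] Kgs K) (P (i - h σ - h τ)) - P (i - h σ))
        have e : ∀ X : (W⁄(Kgs K)).toAffine.Point,
            pmap W ((σ * τ : Gal(Kgs K/K)) : Kgs K →ₐ[K] Kgs K) X =
            pmap W (σ : Kgs K →ₐ[K] Kgs K) (pmap W (τ : Kgs K →ₐ[K] Kgs K) X) := by
          intro X
          cases X <;> rfl
        rw [e, hh.add, ← sub_sub, sg_sub W I I]
        abel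
      · let _ := J v
        refine ⟨fun i => pmap W ι (P i), ?_, fun σ τ hst i => ?_⟩
        · rw [← sg_sum W I (J v), hP, sg_zero]
        · show pmap W ι (pmap W (σ : Kgs K →ₐ[K] Kgs K) (P (i - h σ)) - P i) = _
          rw [sg_sub W I (J v), sg_sq W ι (σ : Kgs K →ₐ[K] Kgs K)
            (τ : Kvs v →ₐ[v.Completion] Kvs v) hst]
  exact key _

end Pool.Agent.MP72P
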