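import Pool.Agent.Lib.MP_72e2e6_nt.P3.E.Spec

/-!
# MP_72e2e6_nt, theorem T3p, part E: the fixed elements modulo `p`
-/

namespace Pool.Agent.MP72P

open Polynomial in
private theorem soc_sum {Λ : Type} [CommRing Λ] (π : Λ) (p : ℕ) :
    ∑ i ∈ Finset.range p, (1 - π) ^ i = ∑ i ∈ Finset.range p, (p.choose (i + 1) : Λ) * (-π) ^ i := by
  have h := congrArg (Polynomial.aeval (-π)) (Polynomial.geom_sum_X_comp_X_add_one_eq_sum p (R := ℤ))
  rw [Polynomial.aeval_comp] at h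
  simp only [map_sum, map_pow, map_mul, Polynomial.aeval_X, map_add, map_one, map_natCast] at h
  rw [← h]
  refine Finset.sum_congr rfl fun i _ => ?_
  congr 1
  ring

/-- `p = π ^ (p - 1) * unit`. -/
private theorem soc_p (p : ℕ) [hp : Fact p.Prime] (hp2 : p ≠ 2) {Λ : Type} [CommRing Λ] (π : Λ) (n : ℕ)
    (hL : LR p n π) : ∃ v w : Λ, (p : Λ) = π ^ (p - 1) * v ∧ π ^ (p - 1) = p * w := by
  have hodd : Odd p := hp.out.odd_of_ne_two hp2
  have hge : 3 ≤ p := by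
    have := hp.out.two_le
    omega
  obtain ⟨q, rfl⟩ : ∃ q, p = q + 2 := ⟨p - 2, by omega⟩
  have h0 : ∑ i ∈ Finset.range (q + 2), ((q + 2).choose (i + 1) : Λ) * (-π) ^ i = 0 := by
    rw [← soc_sum]
    exact hL.phi
  rw [Finset.sum_range_succ, Finset.sum_range_succ'] at h0
  have hch : ∀ i : ℕ, ∃ m : ℕ, i < q → (q + 2).choose (i + 1 + 1) = (q + 2) * m := by
    intro i
    by_cases hi : i < q
    · obtain ⟨m, hm⟩ := hp.out.dvd_choose_self (k := i + 1 + 1) (by omega) (by omega)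
      exact ⟨m, fun _ => hm⟩
    · exact ⟨0, fun h => absurd h hi⟩
  choose m hm using hch
  have h1 : ∑ i ∈ Finset.range q, ((q + 2).choose (i + 1 + 1) : Λ) * (-π) ^ (i + 1) =
      ((q + 2 : ℕ) : Λ) * (π * ∑ i ∈ Finset.range q, -((m i : Λ) * (-π) ^ i)) := by
    rw [Finset.mul_sum, Finset.mul_sum]
    refine Finset.sum_congr rfl fun i hi => ?_
    rw [hm i (Finset.mem_range.1 hi)]
    push_cast
    ring
  have h2 : (-π) ^ (q + 1) = π ^ (q + 1) := by
    refine Even.neg_pow ?_ π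
    rcases hodd with ⟨a, ha⟩
    exact ⟨a, by omega⟩
  rw [h1, h2, Nat.choose_self, zero_add, Nat.choose_one_right] at h0
  set r : Λ := ∑ i ∈ Finset.range q, -((m i : Λ) * (-π) ^ i) with hr
  have hu : IsUnit (1 + π * r) := by
    have hnil : IsNilpotent (π * r) := ⟨n, by rw [mul_pow, hL.nil, zero_mul]⟩
    exact hnil.isUnit_one_add
  obtain ⟨u, hu⟩ := hu
  have hmain : π ^ (q + 1) = -(((q + 2 : ℕ) : Λ) * (1 + π * r)) := by
    have h3 : ((q + 2 : ℕ) : Λ) * (π * r) + ((q + 2 : ℕ) : Λ) * (-π) ^ 0 + ((1 : ℕ) : Λ) * π ^ (q + 1) = 0 := h0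
    rw [pow_zero, Nat.cast_one] at h3
    linear_combination h3
  refine ⟨-(↑u⁻¹ : Λ), -(1 + π * r), ?_, ?_⟩
  · show ((q + 2 : ℕ) : Λ) = π ^ (q + 1) * -(↑u⁻¹ : Λ)
    rw [hmain, ← hu]
    have : (u : Λ) * (↑u⁻¹ : Λ) = 1 := Units.mul_inv u
    linear_combination (-((q + 2 : ℕ) : Λ)) * this
  · show π ^ (q + 1) = ((q + 2 : ℕ) : Λ) * -(1 + π * r)
    rw [hmain]
    ring

theorem tSoc (h1 : S_Lrb) : S_Soc := by
  intro p hp hp2 k Λ _ π hL
  have hge : 3 ≤ p := by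
    have := hp.out.two_le
    omega
  obtain ⟨v, w, hv, hw⟩ := soc_p p hp2 π _ hL
  obtain ⟨q, hq⟩ : ∃ q, p = q + 3 := ⟨p - 3, by omega⟩
  have hp1 : p - 1 = q + 2 := by omega
  have hp22 : p - 2 = q + 1 := by omega
  refine ⟨⟨π ^ q * v, ?_⟩, ?_⟩
  · rw [hv, hp1]
    ring
  intro x hx n b hb hne
  have hb2 : ∀ i, ∃ (c : ℕ) (y : Λ), b i = c * π ^ (p - 2) + p * y := by
    intro i
    obtain ⟨y, hy⟩ := hb i
    rcases hx with ⟨u, hu⟩ | ⟨u', ⟨u, hu⟩, hx'⟩
    · refine ⟨0, ↑u⁻¹ * y, ?_⟩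
      have : (↑u⁻¹ : Λ) * (u : Λ) = 1 := Units.inv_mul u
      rw [← hu] at hy
      rw [Nat.cast_zero]
      linear_combination (↑u⁻¹ : Λ) * hy - b i * this
    · have hinv : (↑u⁻¹ : Λ) * (u : Λ) = 1 := Units.inv_mul u
      rw [hx', ← hu] at hy
      have h2 : π ^ 1 * ((u : Λ) * b i - π ^ (p - 2) * (v * y)) = 0 := by
        rw [hv, hp1] at hy
        rw [hp22]
        linear_combination hy
      have hn1 : 1 ≤ (k + 1) * (p - 1) := by
        have : 1 ≤ p - 1 := by omega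
        nlinarith
      obtain ⟨y', hy'⟩ := ((h1 p _ Λ π hL).2.2.2.2.2.2.1 1 hn1 _).1 h2
      have hn2 : (k + 1) * (p - 1) - 1 = (p - 2) + ((k + 1) * (p - 1) - (p - 1)) := by
        have : (p - 1) ≤ (k + 1) * (p - 1) := Nat.le_mul_of_pos_left _ (Nat.succ_pos k)
        omega
      rw [hn2, pow_add] at hy'
      set z : Λ := v * y + π ^ ((k + 1) * (p - 1) - (p - 1)) * y' with hz
      have h3 : b i = π ^ (p - 2) * (↑u⁻¹ * z) := by
        linear_combination (↑u⁻¹ : Λ) * hy' - b i * hinv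
      obtain ⟨c, y'', hc⟩ := hL.res (↑u⁻¹ * z)
      refine ⟨c, w * y'', ?_⟩
      rw [h3, hc]
      have h4 : π ^ (p - 2) * π = π ^ (p - 1) := by
        rw [hp22, hp1]
        ring
      linear_combination y'' * h4 + y'' * hw
  choose c y hcy using hb2
  have hinj : Function.Injective fun i => (c i : ZMod p) := by
    intro i j hij
    by_contra hne'
    refine hne i j hne' ?_
    obtain ⟨t, ht⟩ := (h1 p _ Λ π hL).2.2.2.2.2.2.2.2.2 (c i) (c j) hij
    refine ⟨w * t + y i - y j, ?_⟩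
    rw [hcy i, hcy j]
    have h4 : π ^ (p - 2) * π = π ^ (p - 1) := by
      rw [hp22, hp1]
      ring
    linear_combination π ^ (p - 2) * ht + t * h4 + t * hw
  have := Fintype.card_le_of_injective _ hinj
  rwa [Fintype.card_fin, ZMod.card] at this

end Pool.Agent.MP72P
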