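import Pool.Agent.Lib.MP_72e2e6_nt.P3.E.SpecB

/-!
# MP_72e2e6_nt, theorem T3p, part E: functions on `Λ` given by elements
-/

namespace Pool.Agent.MP72P

open WeierstrassCurve
open Pool.Agent.MP72W (pmap)
open Pool.Agent.MP72V

open scoped Classical

private theorem uw_refl {N : ℕ} {L : Type} [Field L] (a : L) : EqN N a a :=
  ⟨1, one_ne_zero, by simp⟩

private theorem uw_symm {N : ℕ} {L : Type} [Field L] {a b : L} (h : EqN N a b) : EqN N b a := by
  obtain ⟨s, hs, h⟩ := h
  refine ⟨s⁻¹, inv_ne_zero hs, ?_⟩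
  rw [h, mul_assoc, ← mul_pow, mul_inv_cancel₀ hs, one_pow, mul_one]

private theorem uw_trans {N : ℕ} {L : Type} [Field L] {a b c : L} (h : EqN N a b)
    (h' : EqN N b c) : EqN N a c := by
  obtain ⟨s, hs, h⟩ := h
  obtain ⟨t, ht, h'⟩ := h'
  refine ⟨t * s, mul_ne_zero ht hs, ?_⟩
  rw [h, h', mul_pow, mul_assoc]

private theorem uw_mul {N : ℕ} {L : Type} [Field L] {a b c d : L} (h : EqN N a b)
    (h' : EqN N c d) : EqN N (a * c) (b * d) := by
  obtain ⟨s, hs, h⟩ := h
  obtain ⟨t, ht, h'⟩ := h'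
  refine ⟨s * t, mul_ne_zero hs ht, ?_⟩
  rw [h, h', mul_pow]
  ring

private theorem uw_prod {N : ℕ} {L : Type} [Field L] {ι : Type} (s : Finset ι) (f g : ι → L)
    (h : ∀ i ∈ s, EqN N (f i) (g i)) : EqN N (∏ i ∈ s, f i) (∏ i ∈ s, g i) := by
  induction s using Finset.induction_on with
  | empty => exact uw_refl _
  | insert a s ha ih =>
    rw [Finset.prod_insert ha, Finset.prod_insert ha]
    exact uw_mul (h a (Finset.mem_insert_self a s))
      (ih fun i hi => h i (Finset.mem_insert_of_mem hi))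

private theorem uw_npow {N : ℕ} {L : Type} [Field L] {a b : L} (h : EqN N a b) (m : ℕ) :
    EqN N (a ^ m) (b ^ m) := by
  obtain ⟨s, hs, h⟩ := h
  refine ⟨s ^ m, pow_ne_zero _ hs, ?_⟩
  rw [h, mul_pow]
  ring

private theorem uw_le {N : ℕ} {L : Type} [Field L] {w : L} (hw : w ≠ 0) {a b : ℕ} (hab : a ≤ b)
    (h : (a : ZMod N) = b) : EqN N (w ^ b) (w ^ a) := by
  rw [ZMod.natCast_eq_natCast_iff, Nat.modEq_iff_dvd' hab] at h
  obtain ⟨t, ht⟩ := h
  refine ⟨w ^ t, pow_ne_zero _ hw, ?_⟩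
  have hb : b = a + t * N := by rw [mul_comm t N, ← ht]; omega
  rw [hb, pow_add, pow_mul]

private theorem uw_cast {N : ℕ} {L : Type} [Field L] {w : L} (hw : w ≠ 0) {a b : ℕ}
    (h : (a : ZMod N) = b) : EqN N (w ^ a) (w ^ b) := by
  rcases le_total a b with hab | hab
  · exact uw_symm (uw_le hw hab h)
  · exact uw_le hw hab h.symm

theorem tUw : S_Uw := by
  intro p hp k hk Λ _ π φ hφ L _ w hw hprod
  have hpp : p.Prime := hp.out
  have hpos : 0 < p ^ k := pow_pos hpp.pos k
  have : NeZero (p ^ k) := ⟨hpos.ne'⟩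
  have hone : 1 < p ^ k := Nat.one_lt_pow (by omega) hpp.one_lt
  have : Fact (1 < p ^ k) := ⟨hone⟩
  -- independence of the choice
  have key : ∀ z z' : ZMod p → ZMod (p ^ k), φ z = φ z' →
      EqN (p ^ k) (∏ i, w i ^ (z i).val) (∏ i, w i ^ (z' i).val) := by
    intro z z' hz
    have h1 : φ (z - z') = 0 := by
      have h2 := hφ.add (z - z') z'
      rw [sub_add_cancel, hz] at h2
      have h3 : φ z' + 0 = φ z' + φ (z - z') := by rw [add_zero, add_comm]; exact h2
      exact (add_left_cancel h3).symm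
    obtain ⟨c, hc⟩ := (hφ.ker _).1 h1
    have h4 : ∀ i, EqN (p ^ k) (w i ^ (z i).val) (w i ^ ((z' i).val + c.val)) := by
      intro i
      apply uw_cast (hw i)
      have h5 : z i = z' i + c := by
        have h6 := hc i
        rw [Pi.sub_apply] at h6
        rw [← h6]
        ring
      rw [Nat.cast_add, ZMod.natCast_zmod_val, ZMod.natCast_zmod_val, ZMod.natCast_zmod_val, h5]
    refine uw_trans (uw_prod _ _ _ fun i _ => h4 i) ?_
    have h7 : (∏ i, w i ^ ((z' i).val + c.val)) =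
        (∏ i, w i ^ (z' i).val) * (∏ i, w i) ^ c.val := by
      rw [← Finset.prod_pow, ← Finset.prod_mul_distrib]
      exact Finset.prod_congr rfl fun i _ => pow_add _ _ _
    rw [h7]
    have h8 := uw_mul (uw_refl (N := p ^ k) (∏ i, w i ^ (z' i).val)) (uw_npow hprod c.val)
    rw [one_pow, mul_one] at h8
    exact h8
  have hsur : ∀ y : Λ, φ (Function.surjInv hφ.sur y) = y := Function.surjInv_eq hφ.sur
  have hgen : ∀ z, EqN (p ^ k) (∏ i, w i ^ ((Function.surjInv hφ.sur (φ z)) i).val)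
      (∏ i, w i ^ (z i).val) := fun z => key _ _ (hsur _)
  refine ⟨fun y => ∏ i, w i ^ ((Function.surjInv hφ.sur y) i).val, fun y => ?_, hgen,
    fun y y' => ?_, fun l => ?_⟩
  · exact Finset.prod_ne_zero_iff.2 fun i _ => pow_ne_zero _ (hw i)
  · have h1 : φ (Function.surjInv hφ.sur (y + y')) =
        φ (Function.surjInv hφ.sur y + Function.surjInv hφ.sur y') := by
      rw [hφ.add, hsur, hsur, hsur]
    refine uw_trans (key _ _ h1) ?_
    change EqN (p ^ k) _ ((∏ i, w i ^ ((Function.surjInv hφ.sur y) i).val) *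
      ∏ i, w i ^ ((Function.surjInv hφ.sur y') i).val)
    rw [← Finset.prod_mul_distrib]
    refine uw_prod _ _ _ fun i _ => ?_
    rw [← pow_add]
    apply uw_cast (hw i)
    rw [Nat.cast_add, ZMod.natCast_zmod_val, ZMod.natCast_zmod_val, ZMod.natCast_zmod_val]
    rfl
  · refine uw_trans (hgen _) ?_
    have h1 : (∏ i, w i ^ ((fun i => if i = l then (1 : ZMod (p ^ k)) else 0) i).val) = w l := by
      rw [Finset.prod_eq_single l]
      · simp [ZMod.val_one]
      · intro b _ hb
        simp [hb]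
      · intro h
        exact absurd (Finset.mem_univ l) h
    rw [h1]
    exact uw_refl _

end Pool.Agent.MP72P
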