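import Pool.Agent.Lib.MP_72e2e6_nt.WP.El.Defs
import Pool.Agent.Lib.MP_72e2e6_nt.P3.G.Defs

/-!
# MP_72e2e6_nt, theorem T3p, part E (vectors of points, Selmer conditions, descent): definitions

For a homomorphism `h : Gal(K^s/K) → ZMod p` (of an Artin-Schreier extension `K(θ)`) the new part of
`E` over `K(θ)` is the abelian variety `A` with `A(L) = {v : ZMod p → E(L) : ∑ i, v i = 0}` for
`L ⊇ K^s`, with the twisted action `(σ v) i = σ (v (i - h σ))`.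
-/

namespace Pool.Agent.MP72P

open WeierstrassCurve
open Pool.Agent.MP72W (pmap)
open Pool.Agent.MP72V

open scoped Classical

section

variable {K : Type} [Field K] (W : WeierstrassCurve K) {p : ℕ} [Fact p.Prime]

/-- The twisted action on vectors: `(c, f)` maps `v` to `i ↦ f (v (i - c))`. -/
noncomputable def tac {S L M : Type} [Field S] [Field L] [Field M] [Algebra K S] [Algebra K L]
    [Algebra K M] [Algebra S L] [Algebra S M] [IsScalarTower K S L] [IsScalarTower K S M]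
    (c : ZMod p) (f : L →ₐ[S] M) (v : ZMod p → (W⁄L).toAffine.Point) :
    ZMod p → (W⁄M).toAffine.Point :=
  fun i => pmap W f (v (i - c))

/-- `z` is a locally constant crossed homomorphism with values in `A(K^s)`. -/
structure CocV (h : Gal(Kgs K/K) → ZMod p)
    (z : Gal(Kgs K/K) → ZMod p → (W⁄(Kgs K)).toAffine.Point) : Prop where
  loc : IsLocallyConstant z
  sum : ∀ σ, ∑ i, z σ i = 0
  mul : ∀ σ τ, z (σ * τ) = z σ + tac W (h σ) (σ : Kgs K →ₐ[K] Kgs K) (z τ)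

/-- `z` is trivial over the completion at `v`. -/
def LocV (h : Gal(Kgs K/K) → ZMod p) (z : Gal(Kgs K/K) → ZMod p → (W⁄(Kgs K)).toAffine.Point)
    (v : AbsoluteValue K ℝ) : Prop :=
  ∀ ι : Kgs K →ₐ[K] Kvs v, ∃ Q : ZMod p → (W⁄(Kvs v)).toAffine.Point, ∑ i, Q i = 0 ∧
    ∀ (σ : Gal(Kgs K/K)) (τ : Gal(Kvs v/v.Completion)), (∀ x, τ (ι x) = ι (σ x)) →
      ∀ i, pmap W ι (z σ i) = pmap W (τ : Kvs v →ₐ[v.Completion] Kvs v) (Q (i - h σ)) - Q i

/-- `z` defines an element of the Tate-Shafarevich group of `A`. -/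
def ShaV (h : Gal(Kgs K/K) → ZMod p) (z : Gal(Kgs K/K) → ZMod p → (W⁄(Kgs K)).toAffine.Point) :
    Prop :=
  CocV W h z ∧ ∀ v : AbsoluteValue K ℝ, v.IsNontrivial → LocV W h z v

/-- The `p`-primary component of the Tate-Shafarevich group of `A` is finite. -/
def ShaFinV (h : Gal(Kgs K/K) → ZMod p) : Prop :=
  ∃ T : Set (Gal(Kgs K/K) → ZMod p → (W⁄(Kgs K)).toAffine.Point), T.Finite ∧
    ∀ z, ShaV W h z →
      (∃ (n : ℕ) (P : ZMod p → (W⁄(Kgs K)).toAffine.Point), ∑ i, P i = 0 ∧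
        ∀ σ, p ^ n • z σ = tac W (h σ) (σ : Kgs K →ₐ[K] Kgs K) P - P) →
      ∃ y ∈ T, ∃ P : ZMod p → (W⁄(Kgs K)).toAffine.Point, ∑ i, P i = 0 ∧
        ∀ σ, z σ - y σ = tac W (h σ) (σ : Kgs K →ₐ[K] Kgs K) P - P

/-- The group `A(K)`. -/
def RatV (h : Gal(Kgs K/K) → ZMod p) : Set (ZMod p → (W⁄(Kgs K)).toAffine.Point) :=
  {v | ∑ i, v i = 0 ∧ ∀ σ : Gal(Kgs K/K), tac W (h σ) (σ : Kgs K →ₐ[K] Kgs K) v = v}

/-- The property considered in the theorem. -/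
def GdV (h : Gal(Kgs K/K) → ZMod p) : Prop := (RatV W h).Finite ∧ ShaFinV W h

end

section

variable {K : Type} [Field K] (p : ℕ) [Fact p.Prime] (W : WeierstrassCurve K)
  (h : Gal(Kgs K/K) → ZMod p) (k : ℕ)

/-- The pairs `(z, P)`: `z` defines an element of the Tate-Shafarevich group and `p ^ k z` is the
coboundary of `P`. -/
structure ZPV (z : Gal(Kgs K/K) → ZMod p → Pt p W 0 (Kgs K)) (P : ZMod p → Pt p W 0 (Kgs K)) :
    Prop where
  sha : ShaV (fr p W 0) h z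
  sum : ∑ i, P i = 0
  mul : ∀ σ, p ^ k • z σ = tac (fr p W 0) (h σ) (σ : Kgs K →ₐ[K] Kgs K) P - P

/-- Equivalence of the pairs `(z, P)`. -/
def ZEV (z z' : Gal(Kgs K/K) → ZMod p → Pt p W 0 (Kgs K)) (P P' : ZMod p → Pt p W 0 (Kgs K)) :
    Prop :=
  ∃ m : ZMod p → Pt p W 0 (Kgs K), ∑ i, m i = 0 ∧
    (∀ σ, z σ - z' σ = tac (fr p W 0) (h σ) (σ : Kgs K →ₐ[K] Kgs K) m - m) ∧ P - P' = p ^ k • m

/-- The Selmer condition for vectors `P` of points of `E_k` modulo `Fn k`. -/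
structure SeF (P : ZMod p → Pt p W k (Kgs K)) : Prop where
  sum : ∑ i, P i = 0
  glo : ∀ σ : Gal(Kgs K/K), ∃ q : ZMod p → Pt p W 0 (Kgs K), ∑ i, q i = 0 ∧
    tac (fr p W k) (h σ) (σ : Kgs K →ₐ[K] Kgs K) P = P + fun i => Fn p W k (q i)
  lcl : ∀ v : AbsoluteValue K ℝ, v.IsNontrivial → ∀ ι : Kgs K →ₐ[K] Kvs v,
    ∃ q : ZMod p → Pt p W 0 (Kvs v), ∑ i, q i = 0 ∧ ∀ g : Gal(Kvs v/v.Completion),
      tac (fr p W k) (h (rsH (M := v.Completion) ι g)) (g : Kvs v →ₐ[v.Completion] Kvs v)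
        (fun i => pmap (fr p W k) ι (P i) - Fn p W k (q i)) =
          fun i => pmap (fr p W k) ι (P i) - Fn p W k (q i)

/-- The Selmer condition for a crossed homomorphism with values in the kernel of `Vn k` (identified
with the vectors `ZMod p → ZMod (p ^ k)` with sum `0`). -/
structure SeV (R : Pt p W k (Kgs K)) (ψ : Gal(Kgs K/K) → ZMod (p ^ k))
    (c : Gal(Kgs K/K) → ZMod p → ZMod (p ^ k)) : Prop where
  loc : IsLocallyConstant c
  sum : ∀ σ, ∑ i, c σ i = 0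
  mul : ∀ σ τ i, c (σ * τ) i = c σ i + ψ σ * c τ (i - h σ)
  sel : ∀ v : AbsoluteValue K ℝ, v.IsNontrivial → ∀ ι : Kgs K →ₐ[K] Kvs v,
    ∃ X : ZMod p → Pt p W k (Kvs v), ∑ i, X i = 0 ∧ ∀ (g : Gal(Kvs v/v.Completion)) (i : ZMod p),
      (c (rsH (M := v.Completion) ι g) i).val • pmap (fr p W k) ι R =
        pmap (fr p W k) (g : Kvs v →ₐ[v.Completion] Kvs v)
          (X (i - h (rsH (M := v.Completion) ι g))) - X i

/-- `Q` is mapped by `Vn k` to a point of order `p` of `E_0`. -/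
def IsQ {L : Type} [Field L] [Algebra K L] (Q : Pt p W k L) : Prop :=
  Vn p W k Q ≠ 0 ∧ p • Vn p W k Q = 0

end

/-- The ring `Λ = (ZMod (p ^ k))[ζ]` with the map `φ` from the functions on `ZMod p` (`S_Lfn`). -/
structure IsLam (p : ℕ) [Fact p.Prime] (k : ℕ) {Λ : Type} [CommRing Λ] (π : Λ)
    (φ : (ZMod p → ZMod (p ^ k)) → Λ) : Prop where
  lr : LR p (k * (p - 1)) π
  ck : ((p ^ k : ℕ) : Λ) = 0
  sur : Function.Surjective φ
  add : ∀ z z', φ (z + z') = φ z + φ z'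
  ker : ∀ z, φ z = 0 ↔ ∃ c, ∀ i, z i = c
  shf : ∀ z (c : ZMod p), φ (fun i => z (i - c)) = zt π c * φ z
  nsm : ∀ z (m : ℕ), φ (fun i => m * z i) = m * φ z

end Pool.Agent.MP72P
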