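import Pool.Agent.Lib.MP_72e2e6_nt.P3.E.Defs
import Pool.Agent.Lib.MP_72e2e6_nt.WP.Fd.Defs

/-!
# MP_72e2e6_nt, theorem T3p, part E: definitions for part B

Names for the hypotheses on the curve which are used in part E.
-/

namespace Pool.Agent.MP72P

open WeierstrassCurve
open Pool.Agent.MP72W (pmap)
open Pool.Agent.MP72V

open scoped Classical

section

variable {K : Type} [Field K] (p : ℕ) [Fact p.Prime] (W : WeierstrassCurve K) {J : Type}
  (av : J → AbsoluteValue K ℝ) (k : ℕ)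

/-- The isogeny `Vn k` is unramified outside the places `av j`. -/
def HUn : Prop :=
  ∀ v : AbsoluteValue K ℝ, v.IsNontrivial → (∀ j, ¬ v.IsEquiv (av j)) →
    ∀ X : Pt p W k (Kvs v), (∀ g : Gal(Kvs v/v.Completion), IsGeo p g →
      pmap (fr p W 0) (g : Kvs v →ₐ[v.Completion] Kvs v) (Vn p W k X) = Vn p W k X) →
      ∀ g : Gal(Kvs v/v.Completion), IsGeo p g →
        pmap (fr p W k) (g : Kvs v →ₐ[v.Completion] Kvs v) X = X

/-- The functions `w` are unramified outside the places `av j`. -/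
def HWu : Prop :=
  ∀ v : AbsoluteValue K ℝ, v.IsNontrivial → (∀ j, ¬ v.IsEquiv (av j)) →
    ∀ (Q : ℕ) (ϖ : K) (R₀ : Finset K), LF v p Q ϖ R₀ →
    ∀ R : Pt p W k (Kvs v), IsR p W k R → ∀ w, IsWt p W k R w →
    ∀ P : Pt p W k (Kvs v), (∀ g : Gal(Kvs v/v.Completion), IsGeo p g →
      pmap (fr p W k) (g : Kvs v →ₐ[v.Completion] Kvs v) P = P) →
    ∃ r ∈ Knr p v, r ≠ 0 ∧ EqN (p ^ k) (w P) r ∧ ∃ x : ℤ, nm v r = v ϖ ^ x ∧ (p : ℤ) ^ k ∣ x

/-- The points of `A` over the completion at `v` are generated by the point of order `p` and the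
image of `Vn k`. -/
def HLo (v : AbsoluteValue K ℝ) (D : K) (Q : Pt p W k (Kvs v)) : Prop :=
  ∀ e : ZMod p → Pt p W 0 (Kvs v), ∑ l, e l = 0 →
    (∀ g : Gal(Kvs v/v.Completion),
      tac (fr p W 0) (hP p (1 : Kvs v) (algebraMap K v.Completion D) g)
        (g : Kvs v →ₐ[v.Completion] Kvs v) e = e) →
    ∃ (m : ℤ) (u : ZMod p → Pt p W k (Kvs v)), ∑ l, u l = 0 ∧
      (∀ g : Gal(Kvs v/v.Completion),
        tac (fr p W k) (hP p (1 : Kvs v) (algebraMap K v.Completion D) g)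
          (g : Kvs v →ₐ[v.Completion] Kvs v) u = u) ∧
      ∀ l, e l = m • Vn p W k Q + Vn p W k (u l)

/-- The divisibility implies that `A(K)` is finite. -/
def HEn (D : K) : Prop :=
  (∀ v ∈ RatV (fr p W 0) (fun σ => hP p (1 : Kgs K) D σ),
    ∃ u ∈ RatV (fr p W 0) (fun σ => hP p (1 : Kgs K) D σ), p ^ (k - 1) • v = p ^ k • u) →
  (RatV (fr p W 0) (fun σ => hP p (1 : Kgs K) D σ)).Finite

/-- The Artin-Schreier homomorphism of `D` on the absolute Galois group. -/
noncomputable def hD (D : K) (σ : Gal(Kgs K/K)) : ZMod p := hP p (1 : Kgs K) D σ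

end

end Pool.Agent.MP72P
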