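import Pool.Agent.Lib.MP_72e2e6_nt.P3.E.Spec

/-!
# MP_72e2e6_nt, theorem T3p, part E: Kap, the embedding of the vectors in the ring (helper69)
-/

namespace Pool.Agent.MP72P

set_option autoImplicit false

open WeierstrassCurve
open Pool.Agent.MP72W (pmap)
open Pool.Agent.MP72V

open scoped Classical

section

variable {p : ℕ} [Fact p.Prime] {k : ℕ}

/-- the map `a ↦ p * a.val` -/
private def kj (p k : ℕ) (a : ZMod (p ^ k)) : ZMod (p ^ (k + 1)) :=
  (p : ZMod (p ^ (k + 1))) * ((a.val : ℕ) : ZMod (p ^ (k + 1)))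

private theorem kap_ne (p : ℕ) [Fact p.Prime] (k : ℕ) : NeZero (p ^ k) :=
  ⟨pow_ne_zero _ (Fact.out : p.Prime).ne_zero⟩

omit [Fact p.Prime] in
private theorem kj_nat (m : ℕ) : kj p k (m : ZMod (p ^ k)) = (p : ZMod (p ^ (k + 1))) * m := by
  unfold kj
  rw [ZMod.val_natCast]
  have h1 : p * m = p ^ (k + 1) * (m / p ^ k) + p * (m % p ^ k) := by
    conv_lhs => rw [← Nat.div_add_mod m (p ^ k)]
    ring
  have h2 : ((p * m : ℕ) : ZMod (p ^ (k + 1))) =
      ((p ^ (k + 1) * (m / p ^ k) + p * (m % p ^ k) : ℕ) : ZMod (p ^ (k + 1))) := by rw [← h1]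
  rw [Nat.cast_add, Nat.cast_mul (p ^ (k + 1)), ZMod.natCast_self, zero_mul, zero_add,
    Nat.cast_mul, Nat.cast_mul] at h2
  exact h2.symm

private theorem kj_add (a b : ZMod (p ^ k)) : kj p k (a + b) = kj p k a + kj p k b := by
  have := kap_ne p k
  have h1 : a + b = ((a.val + b.val : ℕ) : ZMod (p ^ k)) := by
    rw [Nat.cast_add, ZMod.natCast_zmod_val, ZMod.natCast_zmod_val]
  rw [h1, kj_nat]
  unfold kj
  push_cast
  ring

private theorem kj_mul (u : ZMod (p ^ (k + 1))) (b : ZMod (p ^ k)) :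
    kj p k ((u.val : ZMod (p ^ k)) * b) = u * kj p k b := by
  have := kap_ne p k
  have := kap_ne p (k + 1)
  have h1 : (u.val : ZMod (p ^ k)) * b = ((u.val * b.val : ℕ) : ZMod (p ^ k)) := by
    rw [Nat.cast_mul, ZMod.natCast_zmod_val b]
  rw [h1, kj_nat]
  unfold kj
  rw [Nat.cast_mul, ZMod.natCast_zmod_val u]
  ring

omit [Fact p.Prime] in
private theorem kj_zero : kj p k 0 = 0 := by
  have h := kj_nat (p := p) (k := k) 0
  rw [Nat.cast_zero, Nat.cast_zero, mul_zero] at h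
  exact h

private theorem kj_inj (a : ZMod (p ^ k)) (h : kj p k a = 0) : a = 0 := by
  have := kap_ne p k
  unfold kj at h
  rw [← Nat.cast_mul, ZMod.natCast_eq_zero_iff, pow_succ, mul_comm (p ^ k) p] at h
  have h1 := Nat.dvd_of_mul_dvd_mul_left (Fact.out : p.Prime).pos h
  rw [← ZMod.natCast_zmod_val a]
  exact (ZMod.natCast_eq_zero_iff _ _).2 h1

private theorem kj_sum (v : ZMod p → ZMod (p ^ k)) (h : ∑ i, v i = 0) :
    ∑ i, kj p k (v i) = 0 := by
  have h1 := map_sum (AddMonoidHom.mk' (kj p k) kj_add) v Finset.univ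
  rw [h] at h1
  have h2 : kj p k 0 = ∑ i, kj p k (v i) := h1
  rw [← h2, kj_zero]

/-- the reduction -/
private theorem kj_cast (x : ZMod (p ^ (k + 1))) :
    kj p k (ZMod.castHom (pow_dvd_pow p (Nat.le_succ k)) (ZMod (p ^ k)) x) =
      (p : ZMod (p ^ (k + 1))) * x := by
  have := kap_ne p (k + 1)
  have h1 : ZMod.castHom (pow_dvd_pow p (Nat.le_succ k)) (ZMod (p ^ k)) x =
      ((x.val : ℕ) : ZMod (p ^ k)) := by
    conv_lhs => rw [← ZMod.natCast_zmod_val x]
    exact map_natCast _ _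
  rw [h1, kj_nat, ZMod.natCast_zmod_val]

private theorem div_cast (x : ZMod (p ^ (k + 1)))
    (h : ZMod.castHom (dvd_pow_self p (Nat.succ_ne_zero k)) (ZMod p) x = 0) :
    ∃ w, x = (p : ZMod (p ^ (k + 1))) * w := by
  have := kap_ne p (k + 1)
  have h1 : ZMod.castHom (dvd_pow_self p (Nat.succ_ne_zero k)) (ZMod p) x =
      ((x.val : ℕ) : ZMod p) := by
    conv_lhs => rw [← ZMod.natCast_zmod_val x]
    exact map_natCast _ _
  rw [h1, ZMod.natCast_eq_zero_iff] at h
  obtain ⟨w, hw⟩ := h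
  refine ⟨(w : ZMod (p ^ (k + 1))), ?_⟩
  rw [← ZMod.natCast_zmod_val x, hw, Nat.cast_mul]

end

theorem tKap (_ : S_Lrb) (aug : S_Aug) : S_Kap := by
  intro p _ k Λ _ π φ hφ
  obtain ⟨a1, a2, a3⟩ := aug p (ZMod (p ^ (k + 1)))
  have := kap_ne p (k + 1)
  -- additivity of `φ`
  have φ0 : φ 0 = 0 := (hφ.ker 0).2 ⟨0, fun _ => rfl⟩
  have φsub : ∀ z z', φ (z - z') = φ z - φ z' := by
    intro z z'
    have h := hφ.add (z - z') z'
    rw [sub_add_cancel] at h
    rw [h, add_sub_cancel_right]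
  have φmul : ∀ (z : ZMod p → ZMod (p ^ (k + 1))) (u : ZMod (p ^ (k + 1))) (c : ZMod p),
      φ (fun i => u * z (i - c)) = (u.val : Λ) * zt π c * φ z := by
    intro z u c
    have h := hφ.nsm (fun i => z (i - c)) u.val
    rw [hφ.shf, ZMod.natCast_zmod_val u] at h
    rw [h, mul_assoc]
  -- the relation
  let Bel : (ZMod p → ZMod (p ^ k)) → (ZMod p → ZMod (p ^ (k + 1))) → Prop := fun v z =>
    ∀ i, kj p k (v i) = z i - z (i - 1)
  have bel_ex : ∀ v, ∑ i, v i = 0 → ∃ z, Bel v z := fun v hv => a1 _ (kj_sum v hv)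
  have bel_un : ∀ v z z', Bel v z → Bel v z' → φ z = φ z' := by
    intro v z z' h h'
    have h1 : φ (z - z') = 0 := by
      refine (hφ.ker _).2 (a2 _ fun i => ?_)
      have e1 := h i
      have e2 := h' i
      show z i - z' i - (z (i - 1) - z' (i - 1)) = 0
      rw [sub_sub_sub_comm, ← e1, ← e2, sub_self]
    rw [φsub] at h1
    exact sub_eq_zero.1 h1
  let κ : (ZMod p → ZMod (p ^ k)) → Λ := fun v => if h : ∃ z, Bel v z then φ h.choose else 0
  have hκ : ∀ v z, Bel v z → κ v = φ z := by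
    intro v z h
    have hex : ∃ z, Bel v z := ⟨z, h⟩
    have e : κ v = φ hex.choose := dif_pos hex
    rw [e]
    exact bel_un v _ _ hex.choose_spec h
  refine ⟨κ, ?_, ?_, ?_, ?_, ?_, ?_⟩
  · intro v v' hv hv'
    obtain ⟨z, hz⟩ := bel_ex v hv
    obtain ⟨z', hz'⟩ := bel_ex v' hv'
    rw [hκ v z hz, hκ v' z' hz', ← hφ.add]
    apply hκ
    intro i
    have e1 := hz i
    have e2 := hz' i
    show kj p k (v i + v' i) = z i + z' i - (z (i - 1) + z' (i - 1))
    rw [kj_add, e1, e2]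
    ring
  · intro v hv h0
    obtain ⟨z, hz⟩ := bel_ex v hv
    rw [hκ v z hz] at h0
    obtain ⟨c, hc⟩ := (hφ.ker z).1 h0
    funext i
    apply kj_inj
    rw [hz i, hc, hc, sub_self]
  · intro v hv u c
    obtain ⟨z, hz⟩ := bel_ex v hv
    rw [hκ v z hz, ← φmul]
    apply hκ
    intro i
    have e1 := hz (i - c)
    show kj p k ((u.val : ZMod (p ^ k)) * v (i - c)) = u * z (i - c) - u * z (i - 1 - c)
    rw [kj_mul, e1, sub_right_comm i 1 c]
    ring
  · intro v hv
    obtain ⟨z, hz⟩ := bel_ex v hv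
    rw [hκ v z hz]
    obtain ⟨-, b2, -⟩ := aug p (ZMod p)
    obtain ⟨c, hc⟩ := b2 (fun i =>
      ZMod.castHom (dvd_pow_self p (Nat.succ_ne_zero k)) (ZMod p) (z i)) (by
        intro i
        rw [← map_sub, ← hz i]
        unfold kj
        rw [map_mul, map_natCast, ZMod.natCast_self, zero_mul])
    have hw : ∀ i, ∃ w, z i - z 0 = (p : ZMod (p ^ (k + 1))) * w := by
      intro i
      apply div_cast
      rw [map_sub, hc i, hc 0, sub_self]
    choose w hw using hw
    refine ⟨φ w, ?_⟩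
    have h1 := hφ.nsm w p
    rw [← h1]
    have h2 : (fun i => (p : ZMod (p ^ (k + 1))) * w i) = z - fun _ => z 0 := by
      funext i
      rw [← hw i]
      rfl
    rw [h2, φsub, (hφ.ker fun _ => z 0).2 ⟨z 0, fun _ => rfl⟩, sub_zero]
  · intro y
    obtain ⟨z, rfl⟩ := hφ.sur y
    refine ⟨fun i => ZMod.castHom (pow_dvd_pow p (Nat.le_succ k)) (ZMod (p ^ k))
      (z i - z (i - 1)), ?_, ?_⟩
    · rw [← map_sum, a3 z, map_zero]
    · rw [← hφ.nsm z p]
      apply hκ
      intro i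
      show kj p k (ZMod.castHom (pow_dvd_pow p (Nat.le_succ k)) (ZMod (p ^ k))
        (z i - z (i - 1))) = (p : ZMod (p ^ (k + 1))) * z i - (p : ZMod (p ^ (k + 1))) * z (i - 1)
      rw [kj_cast, mul_sub]
  · intro z' hz'
    obtain ⟨z, hz⟩ := a1 z' hz'
    refine ⟨φ z, fun v _ u c hrel => ?_⟩
    rw [← φmul, ← φsub]
    apply hκ
    intro i
    have e0 : kj p k (v i) = u * z' (i - c) - z' i := hrel i
    have e1 := hz i
    have e2 := hz (i - c)
    show kj p k (v i) = u * z (i - c) - z i - (u * z (i - 1 - c) - z (i - 1))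
    rw [e0, e1, e2, sub_right_comm i 1 c]
    ring

end Pool.Agent.MP72P
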