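import Pool.Agent.Lib.MP_72e2e6_nt.P3.E.Defs
import Pool.Agent.Lib.MP_72e2e6_nt.P3.G.Spec
import Pool.Agent.Lib.MP_72e2e6_nt.P3.A2.Spec
import Pool.Agent.Lib.MP_72e2e6_nt.WP.El.Spec

/-!
# MP_72e2e6_nt, theorem T3p, part E: vectors of points, Selmer conditions, descent

The proofs are complete in the docstrings; every module is independent (used statements are
hypotheses): file `P3/E/<Name>.lean` (import this file only) with `theorem t<Name> : S_<Name>` or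
`theorem t<Name> (h1 : S_X) (h2 : S_Y) .. : S_<Name>` (in the order of the docstring), namespace
`Pool.Agent.MP72P` (`open Pool.Agent.MP72V`), other declarations `private`. Use `open scoped Classical` (the group structure on
the points uses the classical decidable equality). The corresponding modules for `p = 2` are
`W2/E/<Name>.lean` (Shg, Dsc, Cyc, Fsh, Fr1) and `W2/D/VS.lean`: look at them. `∂P` is the crossed homomorphism
`σ ↦ tac (h σ) σ P - P`. A vector is a function on `ZMod p` with sum `0`.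
-/

namespace Pool.Agent.MP72P

open WeierstrassCurve
open Pool.Agent.MP72W (pmap)
open Pool.Agent.MP72V

open scoped Classical

/-- **Aug** (80 lines). Vectors with sum zero are differences.

Proof. `z i = ∑_{j ≤ i.val} v j` (`j` from `0` to `i.val`, in `ZMod p`); for `i = 0` use `∑ v = 0`. The second
statement: `z i = z (i - 1)` for all `i`, so `z` is constant (`ZMod p` is generated by `1`). -/
def S_Aug : Prop :=
  ∀ (p : ℕ) [Fact p.Prime] (A : Type) [AddCommGroup A],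
    (∀ v : ZMod p → A, ∑ i, v i = 0 → ∃ z : ZMod p → A, ∀ i, v i = z i - z (i - 1)) ∧
    (∀ z : ZMod p → A, (∀ i, z i - z (i - 1) = 0) → ∃ c, ∀ i, z i = c) ∧
    ∀ z : ZMod p → A, ∑ i, (z i - z (i - 1)) = 0

/-- **Kap** (250 lines, uses `S_Lrb`, `S_Aug`). The embedding of the vectors modulo `p ^ k` in the ring `Λ` of
level `k + 1`.

Proof. For a vector `v : ZMod p → ZMod (p ^ k)` the function `i ↦ (p * (v i).val : ZMod (p ^ (k + 1)))` has the sum `0`, so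
it is `z i - z (i - 1)` (`S_Aug`); `κ v = φ z` does not depend on `z` (`z` is unique up to a constant,
`IsLam.ker`). (For other `v` let `κ v = 0`.) (1), (2): the map `a ↦ (p * a.val : ZMod (p ^ (k + 1)))` is an injective
homomorphism from `ZMod (p ^ k)`; `κ v = 0` implies `z` constant. (3) if `z` belongs to `v`, then
`i ↦ u * z (i - c)` belongs to `i ↦ (u.val) * v (i - c)`; `φ (i ↦ u * z (i - c)) = u.val * ζ ^ c * φ z`
(`shf`, `nsm`; `u = (u.val : ZMod (p ^ (k + 1)))`). (4) `κ v = φ z` with all `z i - z (i - 1)` divisible by `p`; subtract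
a constant: `z = p z₁`, `φ z = p φ z₁`. Conversely `p y = p φ z₁ = φ (p z₁)` and `p (z₁ i - z₁ (i - 1))` is
`p * (v i).val` for the reduction `v` of the differences modulo `p ^ k`. (5) let `z' i = z'' i - z'' (i - 1)`;
then `z = u z'' (· - c) - z''` belongs to `v` and `κ v = (u.val ζ ^ c - 1) φ z''`. -/
def S_Kap : Prop :=
  ∀ (p : ℕ) [Fact p.Prime] (k : ℕ) (Λ : Type) [CommRing Λ] (π : Λ)
    (φ : (ZMod p → ZMod (p ^ (k + 1))) → Λ), IsLam p (k + 1) π φ →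
    ∃ κ : (ZMod p → ZMod (p ^ k)) → Λ,
      (∀ v v', ∑ i, v i = 0 → ∑ i, v' i = 0 → κ (v + v') = κ v + κ v') ∧
      (∀ v, ∑ i, v i = 0 → κ v = 0 → v = 0) ∧
      (∀ v, ∑ i, v i = 0 → ∀ (u : ZMod (p ^ (k + 1))) (c : ZMod p),
        κ (fun i => (u.val : ZMod (p ^ k)) * v (i - c)) = (u.val : Λ) * zt π c * κ v) ∧
      (∀ v, ∑ i, v i = 0 → ∃ y, κ v = (p : Λ) * y) ∧
      (∀ y : Λ, ∃ v, ∑ i, v i = 0 ∧ κ v = (p : Λ) * y) ∧
      ∀ z' : ZMod p → ZMod (p ^ (k + 1)), ∑ i, z' i = 0 → ∃ b : Λ, ∀ v, ∑ i, v i = 0 →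
        ∀ (u : ZMod (p ^ (k + 1))) (c : ZMod p),
        (∀ i, (p : ZMod (p ^ (k + 1))) * ((v i).val : ZMod (p ^ (k + 1))) = u * z' (i - c) - z' i) →
          κ v = (u.val : Λ) * zt π c * b - b

/-- **ShgV** (150 lines). The crossed homomorphisms in `ShaV` form a group containing the coboundaries.

Proof. As in `W2/E/Shg.lean`. `pmap` is additive; in `LocV` take the sum of the `Q`. Coboundaries: locally
constant (the coordinates of the `P i` are algebraic, stabilizers are open), a crossed homomorphism as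
`tac (h σ) σ (tac (h τ) τ P) = tac (h (σ τ)) (σ τ) P` (`h` is additive), sum `0`, and locally `Q i = ι (P i)`:
`ι (σ (P (i - h σ))) = τ (ι (P (i - h σ)))` if `τ ι = ι σ` on `K^s`. -/
def S_ShgV : Prop :=
  ∀ (p : ℕ) [Fact p.Prime] (K : Type) [Field K] (W : WeierstrassCurve K)
    (h : Gal(Kgs K/K) → ZMod p), HomP p h →
    ShaV W h (fun _ => 0) ∧
    (∀ z z', ShaV W h z → ShaV W h z' → ShaV W h (fun σ => z σ + z' σ)) ∧
    (∀ z, ShaV W h z → ShaV W h (fun σ => - z σ)) ∧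
    (∀ (n : ℕ) z, ShaV W h z → ShaV W h (fun σ => n • z σ)) ∧
    ∀ P : ZMod p → (W⁄(Kgs K)).toAffine.Point, ∑ i, P i = 0 →
      ShaV W h (fun σ => tac W (h σ) (σ : Kgs K →ₐ[K] Kgs K) P - P)

/-- **DscV** (350 lines, uses `S_Res`, `S_Bas`, `S_Fr`, `S_Vh`, `S_It`, `S_Rk`). The descent: the number of the pairs
`(z, P)` is bounded by the product of the two Selmer bounds.

Proof. See `W2/E/Dsc.lean`. (i) For every `i` choose a vector `P' i` of points of `E_k(K^s)` with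
`Vn (P' i j) = P i j` for all `j` (`S_Rk` (1) for `j ≠ 0`, and `P' i 0 = - ∑_{j ≠ 0} P' i j`; `Vn` is additive). For
`σ ∈ Gal(K^s/K)`: `Fn (z i σ j) - ∂(P' i) σ j` is in `ker Vn` (`Vn Fn = p ^ k`, naturality, `ZPV.mul`), so it is
`(c i σ j).val • R` with a unique `c i σ j ∈ ZMod (p ^ k)` (`S_It` (8)); the sum over `j` is `0` and `R` has the order
`p ^ k`, so `∑ j, c i σ j = 0`. `c i` is locally constant, and `c i (σ τ) j = c i σ j + ψ σ * c i τ (j - h σ)`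
(`σ R = (ψ σ).val • R`). Local condition: let `v`, `ι` be given, and `Q_i` the vector of
`LocV (fr p W 0) h (z i) v` for `ι`; `X j = Fn (Q_i j) - ι (P' i j)`: for `g`, `σ = rsH ι g` (`g ι = ι σ` by `S_Res`):
`g (X (j - h σ)) - X j = Fn (ι (z i σ j)) - ι (∂(P' i) σ j) = (c i σ j).val • ι R`. So `SeV .. (c i)`.
(ii) `i ~ j` if `c i - c j` is of the form `σ ↦ ψ σ * m (· - h σ) - m`, `m` a vector: an equivalence relation. The
number `n_V` of the classes satisfies `n_V * a ≤ X` (hypothesis for a system of representatives).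
(iii) Let `i₀` be in a class `C`. For `i ∈ C` let `m_i` be the vector for `c i - c i₀` (`m_{i₀} = 0`) and
`s i j = P' i j - P' i₀ j + (m_i j).val • R`, a vector. `∂(s i) σ = Fn ∘ (z i σ - z i₀ σ)`, and
`Vn (s i j) = P i j - P i₀ j`. `SeF .. (s i)`: `glo` with `q = z i σ - z i₀ σ`; `lcl` with `q = Q_i - Q_{i₀}`:
`tac (h σ) g (ι (s i)) - ι (s i) = Fn ∘ ι (z i σ - z i₀ σ) = tac (h σ) g (Fn q) - Fn q`. If
`s i - s j = Fn ∘ m` with a vector `m`, then `Fn ∘ (z i σ - z j σ) = Fn ∘ (∂m σ)`, so `z i - z j = ∂m` (`Fn` is injective),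
and `P i - P j = Vn ∘ Fn ∘ m = p ^ k • m`: `ZEV`, so `i = j`. So `#C * b ≤ Y`. Sum over the classes:
`n * b ≤ n_V * Y`, and `n * (a * b) ≤ n_V * a * Y ≤ X * Y`. -/
def S_DscV : Prop :=
  ∀ (p : ℕ) [Fact p.Prime], p ≠ 2 → ∀ (K : Type) [Field K] [CharP K p]
    (W : WeierstrassCurve K), IsNf W → Od p W → ∀ h : Gal(Kgs K/K) → ZMod p, HomP p h →
    ∀ (k : ℕ) (R : Pt p W k (Kgs K)), IsR p W k R →
    ∀ ψ : Gal(Kgs K/K) → ZMod (p ^ k), (∀ σ : Gal(Kgs K/K),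
      pmap (fr p W k) (σ : Kgs K →ₐ[K] Kgs K) R = (ψ σ).val • R) →
    ∀ a b X Y : ℕ,
    (∀ (n : ℕ) (c : Fin n → Gal(Kgs K/K) → ZMod p → ZMod (p ^ k)),
      (∀ i, SeV p W h k R ψ (c i)) →
      (∀ i j, i ≠ j → ¬ ∃ m : ZMod p → ZMod (p ^ k), ∑ l, m l = 0 ∧
        ∀ σ l, c i σ l - c j σ l = ψ σ * m (l - h σ) - m l) → n * a ≤ X) →
    (∀ (n : ℕ) (P : Fin n → ZMod p → Pt p W k (Kgs K)), (∀ i, SeF p W h k (P i)) →
      (∀ i j, i ≠ j → ¬ ∃ q : ZMod p → Pt p W 0 (Kgs K), ∑ l, q l = 0 ∧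
        ∀ l, P i l - P j l = Fn p W k (q l)) → n * b ≤ Y) →
    ∀ (n : ℕ) (z : Fin n → Gal(Kgs K/K) → ZMod p → Pt p W 0 (Kgs K))
      (P : Fin n → ZMod p → Pt p W 0 (Kgs K)), (∀ i, ZPV p W h k (z i) (P i)) →
      (∀ i j, i ≠ j → ¬ ZEV p W h k (z i) (z j) (P i) (P j)) → n * (a * b) ≤ X * Y

/-- **CycV** (150 lines, uses `S_ShgV`). A small group has a small exponent. See `W2/E/Cyc.lean`.

Proof. Let `ZPV z P`. The pairs `(j z, j P)`, `0 ≤ j < p ^ k`, satisfy `ZPV` (`S_ShgV`); by hypothesis they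
are not pairwise inequivalent (`n = p ^ k`), so for some `i < j < p ^ k` `(j - i) (z, P) ~ 0`. The set of the
integers `a` with `a (z, P) ~ 0` is a subgroup of `ℤ` which contains `p ^ k` (take `m = P`) and `j - i`, so
also their greatest common divisor `p ^ e` with `e ≤ k - 1`, and `p ^ (k - 1)`. -/
def S_CycV : Prop :=
  ∀ (p : ℕ) [Fact p.Prime] (K : Type) [Field K] (W : WeierstrassCurve K)
    (h : Gal(Kgs K/K) → ZMod p), HomP p h → ∀ (k : ℕ), 1 ≤ k →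
    (∀ (n : ℕ) (z : Fin n → Gal(Kgs K/K) → ZMod p → Pt p W 0 (Kgs K))
      (P : Fin n → ZMod p → Pt p W 0 (Kgs K)), (∀ i, ZPV p W h k (z i) (P i)) →
      (∀ i j, i ≠ j → ¬ ZEV p W h k (z i) (z j) (P i) (P j)) → n < p ^ k) →
    ∀ z P, ZPV p W h k z P → ∃ m : ZMod p → Pt p W 0 (Kgs K), ∑ i, m i = 0 ∧
      (∀ σ, p ^ (k - 1) • z σ = tac (fr p W 0) (h σ) (σ : Kgs K →ₐ[K] Kgs K) m - m) ∧
      p ^ (k - 1) • P = p ^ k • m

/-- **FshV** (200 lines, uses `S_ShgV`, `S_CycV`). Finiteness of the `p`-primary part of the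
Tate-Shafarevich group, and divisibility. See `W2/E/Fsh.lean`.

Proof. (1) Choose `n` maximal such that there are `n` pairwise inequivalent pairs `(z_i, P_i)` with `ZPV`
(`n < p ^ k`), `T = {z_i}`. Let `z` be `ShaV`, `p ^ N z = ∂P`. Claim: `p ^ k z = ∂P'` for some vector `P'`. If `N ≤ k`
take `P' = p ^ (k - N) P`. If `N > k`: `ZPV (p ^ (N - k) z) P`, so by `S_CycV` `p ^ (k - 1) p ^ (N - k) z = ∂m`,
i.e. `p ^ (N - 1) z = ∂m`; induction on `N`. So `ZPV z P'`, and by maximality `(z, P')` is equivalent to some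
`(z_i, P_i)`, so `z - z_i = ∂m`. (2) Let `v ∈ RatV`: `ZPV 0 v`. By `S_CycV` there is a vector `m` with `∂m = 0` and
`p ^ (k - 1) v = p ^ k m`; `m ∈ RatV`. -/
def S_FshV : Prop :=
  ∀ (p : ℕ) [Fact p.Prime] (K : Type) [Field K] (W : WeierstrassCurve K)
    (h : Gal(Kgs K/K) → ZMod p), HomP p h → ∀ (k : ℕ), 1 ≤ k →
    (∀ (n : ℕ) (z : Fin n → Gal(Kgs K/K) → ZMod p → Pt p W 0 (Kgs K))
      (P : Fin n → ZMod p → Pt p W 0 (Kgs K)), (∀ i, ZPV p W h k (z i) (P i)) →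
      (∀ i j, i ≠ j → ¬ ZEV p W h k (z i) (z j) (P i) (P j)) → n < p ^ k) →
    ShaFinV (fr p W 0) h ∧
    ∀ v ∈ RatV (fr p W 0) h, ∃ u ∈ RatV (fr p W 0) h, p ^ (k - 1) • v = p ^ k • u

/-- **Soc** (120 lines, uses `S_Lrb`). The fixed elements modulo `p`.

Proof. Let `n = (k + 1) (p - 1)`. (a) `p Λ = π ^ (p - 1) Λ`: `∑_{i < p} (1 - π) ^ i = 0` is
`∑_{j < p} (-1) ^ j (p choose (j + 1)) π ^ j` (multiply by `π` in `ℤ[X]`, or expand), all coefficients for `j < p - 1` are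
divisible by `p` and the first one is `p`, the last one is `1` (`p` odd), so `p (1 + π (..)) = - π ^ (p - 1)`,
and `1 + π (..)` is a unit. (b) By hypothesis `1 - χ g₀ = π ^ e u`, `u` a unit, `e ≤ 1`. So if
`(1 - χ g₀) b ∈ p Λ` then `π b = π ^ (p - 1) y`, `π (b - π ^ (p - 2) y) = 0`, `b - π ^ (p - 2) y ∈ π ^ (n - 1) Λ ⊆ π ^ (p - 2) Λ`
(`S_Lrb` (6); `n - 1 ≥ p - 2`), `b ∈ π ^ (p - 2) Λ`, `b = π ^ (p - 2) (c + π y')`, `c ∈ ℕ`, so `b - c π ^ (p - 2) ∈ p Λ`, and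
`c` matters only modulo `p`. So among any `p + 1` such `b` two are congruent modulo `p Λ`. -/
def S_Soc : Prop :=
  ∀ (p : ℕ) [Fact p.Prime], p ≠ 2 → ∀ (k : ℕ) (Λ : Type) [CommRing Λ] (π : Λ),
    LR p ((k + 1) * (p - 1)) π →
    (∃ y, (p : Λ) = π ^ 2 * y) ∧
    ∀ x : Λ, (IsUnit x ∨ ∃ u, IsUnit u ∧ x = π * u) → ∀ (n : ℕ) (b : Fin n → Λ),
      (∀ i, ∃ y, x * b i = p * y) → (∀ i j, i ≠ j → ¬ ∃ y, b i - b j = p * y) → n ≤ p

/-- **VSb** (300 lines, uses `S_Lrb`, `S_Kap`, `S_Soc`, `S_Vs2`). The count on the side of `V`, abstract part.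

Proof. `χ g = (ψ g).val ζ ^ (h g)`, `κ` as in `S_Kap`, `C i = κ ∘ c i`, a crossed homomorphism for `rL χ` (`S_Kap` (1),
(3)). `C i` is on every `D w` of the form `a - χ a` by hypothesis and `S_Kap` (6) (`a = - b`). Let `i ≈ j` if
`C i - C j = b - χ b` for some `b ∈ Λ`, an equivalence relation. By `S_Vs2` for a system of representatives
(`M = Λ`, `#Λ = p ^ ((k + 1) (p - 1))`) the number `n'` of the classes satisfies `n' * #Λ ≤ #Ker`. Every class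
has at most `p` elements: let `i₀` be in the class, `C i - C i₀ = b_i - χ b_i`. The values of `C i - C i₀` are in `p Λ`
(`S_Kap` (4)), so `(1 - χ g) b_i ∈ p Λ` for all `g`. If `b_i - b_j = p y = κ m` (`S_Kap` (5)) then
`κ (c i g - c j g) = κ m - χ g κ m = κ (m - ψ m (· - h g))`, and by injectivity
`c i - c j = ψ m' (· - h) - m'` for `m' = - m`, so `i = j`. There is `g₀` with `1 - χ g₀` a unit or `π` times a unit:
if `ω g ≠ 1` for some `g` then `1 - χ g ≡ 1 - ω g` is a unit. Otherwise take `g₀` with `h g₀ ≠ 0`; `ψ g₀ ≡ 1` modulo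
`p`, `p ∈ (π ^ 2)` (`S_Soc`), so `1 - χ g₀ ≡ 1 - ζ ^ (h g₀) ≡ (h g₀).val π` modulo `π ^ 2`. Apply `S_Soc` with
`x = 1 - χ g₀`. -/
def S_VSb : Prop :=
  ∀ (p : ℕ) [Fact p.Prime], p ≠ 2 → ∀ (G : Type) [Group G] [TopologicalSpace G]
    [IsTopologicalGroup G] (S : Type) [Nonempty S] (D : S → Subgroup G) (ω : G → ZMod p)
    (h : G → ZMod p), ChO p ω → HomP p h → (∃ g, h g ≠ 0) → ∀ (k : ℕ)
    (ψ : G → ZMod (p ^ (k + 1))), IsLocallyConstant ψ → ψ 1 = 1 →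
    (∀ a b, ψ (a * b) = ψ a * ψ b) → (∀ a, ∃ y, ψ a = ((ω a).val : ZMod (p ^ (k + 1))) + p * y) →
    ∀ (Λ : Type) [CommRing Λ] (π : Λ) (φ : (ZMod p → ZMod (p ^ (k + 1))) → Λ),
    IsLam p (k + 1) π φ →
    (Ker (rL (tw π (fun g => ((ψ g).val : Λ)) h)) D).Finite →
    ∀ (n : ℕ) (c : Fin n → G → ZMod p → ZMod (p ^ k)), (∀ i, IsLocallyConstant (c i)) →
      (∀ i g, ∑ l, c i g l = 0) →
      (∀ i g g' l, c i (g * g') l = c i g l + ((ψ g).val : ZMod (p ^ k)) * c i g' (l - h g)) →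
      (∀ i w, ∃ z' : ZMod p → ZMod (p ^ (k + 1)), ∑ l, z' l = 0 ∧ ∀ g ∈ D w, ∀ l,
        (p : ZMod (p ^ (k + 1))) * ((c i g l).val : ZMod (p ^ (k + 1))) =
          ψ g * z' (l - h g) - z' l) →
      (∀ i j, i ≠ j → ¬ ∃ m : ZMod p → ZMod (p ^ k), ∑ l, m l = 0 ∧
        ∀ g l, c i g l - c j g l = ((ψ g).val : ZMod (p ^ k)) * m (l - h g) - m l) →
      n * p ^ ((k + 1) * (p - 1)) ≤ p * (Ker (rL (tw π (fun g => ((ψ g).val : Λ)) h)) D).ncard

/-- **VSr** (200 lines, uses `S_Bas`, `S_Fr`, `S_Vh`, `S_It`). The point `p Q`.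

Proof. `Vn (p Q) = p Vn Q = 0`; `p ^ k Q = Fn (Vn Q) ≠ 0` (`Fn` is injective), so `p ^ n (p Q) ≠ 0` for `n < k`, and
`p ^ (k + 1) Q = Fn (p Vn Q) = 0`: the order of `Q` is `p ^ (k + 1)` (`addOrderOf_eq_prime_pow`). (3) If
`Vn X = m • Vn Q` (`m ∈ ℤ`) then `X - m Q ∈ ker Vn`, which consists of the multiples of `p Q` (`S_It` (8)); so
`X = (m + p n) Q`, an element `z • Q` with `z ∈ ZMod (p ^ (k + 1))`. (4) `pmap` is injective, commutes with `Vn`. -/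
def S_VSr : Prop :=
  ∀ (p : ℕ) [Fact p.Prime], p ≠ 2 → ∀ (K : Type) [Field K] [CharP K p]
    (W : WeierstrassCurve K), IsNf W → ∀ (L : Type) [Field L] [Algebra K L] (k : ℕ)
    (Q : Pt p W k L), IsQ p W k Q →
    IsR p W k (p • Q) ∧ addOrderOf Q = p ^ (k + 1) ∧
    (∀ (X : Pt p W k L) (m : ℤ), Vn p W k X = m • Vn p W k Q →
      ∃ z : ZMod (p ^ (k + 1)), X = z.val • Q ∧ ∃ y, z = (m : ZMod (p ^ (k + 1))) + p * y) ∧
    ∀ (S M : Type) [Field S] [Field M] [Algebra K S] [Algebra K M] [Algebra S L] [Algebra S M]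
      [IsScalarTower K S L] [IsScalarTower K S M] (f : L →ₐ[S] M),
      IsQ p W k (pmap (fr p W k) f Q)

/-- **VS** (350 lines, uses `S_Res`, `S_Hst`, `S_Rgo`, `S_Onr`, `S_Fac`, `S_Bas`, `S_Fr`, `S_Vh`, `S_It`, `S_VSr`,
`S_VSb`). The count on the side of `V`.

Proof. Let `R = p • Q` (`IsR`, order `p ^ k`, `S_VSr`), `h = hP p 1 D` on `Gal(K^s/K)`; `h σ = hS D (rG σ)` (`S_Rgo`).
(1) `Unr (c i)`: let `v` be outside the `av j`, `ι` any embedding (exists: `K^s` is separable algebraic, `Kvs v`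
separably closed), `X` as in `SeV.sel`, `e l = Vn (X l)`. For every `g`:
`g (e (l - h')) - e l = Vn ((c i (rsH ι g) l).val • ι R) = 0`, `h' = h (rsH ι g) = hS D (rOm ι g)`. For geometric
`g` `rOm ι g = 1` (`S_Onr`), `h' = 0`, so `g` fixes `e l`. By `hUN` `g` fixes `X l`, so
`(c i (rsH ι g) l).val • ι R = 0` and `c i (rsH ι g) l = 0`. (2) Let `M` be the additive group of the vectors
`m : ZMod p → ZMod (p ^ k)` (finite, of order a power of `p`) with `(ρ g m) l = (ψ g).val * m (l - hS D g)`: `ActP p omS ρ`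
(`uni`: for `g ^ p ^ j`, `j ≥ k ≥ 1`: `hS D (g ^ p ^ j) = 0` and `(ω + p y) ^ p ^ j = ω ^ p ^ j` modulo `p ^ k`). By
`S_Fac` `c i = c' i ∘ rG`. (3) Let `w = av j`, `ι = ι j`, `X` as in `sel`, `e = Vn ∘ X`; `h (rsH ι g) = hP p 1 D_w g`
(`S_Rgo`, `D_w` the image of `D` in the completion) and `tac (..) g e = e`, `∑ e = 0`. By `hLO` `e l = m • Vn (ι Q) + Vn (u l)`. So
`Vn (X l - u l) = m • Vn (ι Q)` and by `S_VSr` `X l - u l = (z' l).val • ι Q`, `z' l ∈ ZMod (p ^ (k + 1))`.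
`∑ l, z' l = 0` (`∑ X = ∑ u = 0`, the order of `ι Q` is `p ^ (k + 1)`). As
`tac (..) g u = u`: `(c i (rsH ι g) l).val • ι R = ((ψ (rOm ι g)) * z' (l - h') - z' l).val • ι Q`
(`g (ι Q) = ι (rsH ι g Q) = (ψ (rOm ι g)).val • ι Q`), i.e.
`p * (c' i (rOm ι g) l).val = ψ (rOm ι g) * z' (l - h') - z' l` in `ZMod (p ^ (k + 1))`. (4) `S_VSb` for
`G = GS`, `D = DS ι`, `h = hS D` (`hS D ≠ 0` as `D` is not `x ^ p - x`, `S_Hst`); `rG` is surjective, so the `c' i` are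
inequivalent. -/
def S_VS : Prop :=
  ∀ (p : ℕ) [Fact p.Prime], p ≠ 2 → ∀ (K : Type) [Field K] [CharP K p], GFld p K →
    ∀ (W : WeierstrassCurve K), IsNf W → Od p W → ∀ (J : Type) (av : J → AbsoluteValue K ℝ)
    (α : Kgs K) (h₀ : K), HS p av α h₀ → ∀ (ι : ∀ j, Kgs K →ₐ[K] Kvs (av j)),
    ∀ D ∈ OS av, (¬ ∃ x : K, x ^ p - x = D) → ∀ (k : ℕ), 1 ≤ k → ∀ Q : Pt p W k (Kgs K),
    IsQ p W k Q → ∀ ψ : GS p av α → ZMod (p ^ (k + 1)), IsLocallyConstant ψ → ψ 1 = 1 →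
    (∀ a b, ψ (a * b) = ψ a * ψ b) →
    (∀ a, ∃ y, ψ a = ((omS p av α a).val : ZMod (p ^ (k + 1))) + p * y) →
    (∀ σ : Gal(Kgs K/K), pmap (fr p W k) (σ : Kgs K →ₐ[K] Kgs K) Q =
      (ψ (rG p av α σ)).val • Q) →
    (∀ v : AbsoluteValue K ℝ, v.IsNontrivial → (∀ j, ¬ v.IsEquiv (av j)) →
      ∀ X : Pt p W k (Kvs v), (∀ g : Gal(Kvs v/v.Completion), IsGeo p g →
        pmap (fr p W 0) (g : Kvs v →ₐ[v.Completion] Kvs v) (Vn p W k X) = Vn p W k X) →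
        ∀ g : Gal(Kvs v/v.Completion), IsGeo p g →
          pmap (fr p W k) (g : Kvs v →ₐ[v.Completion] Kvs v) X = X) →
    (∀ (j : J) (e : ZMod p → Pt p W 0 (Kvs (av j))), ∑ l, e l = 0 →
      (∀ g : Gal(Kvs (av j)/(av j).Completion),
        tac (fr p W 0) (hP p (1 : Kvs (av j)) (algebraMap K (av j).Completion D) g)
          (g : Kvs (av j) →ₐ[(av j).Completion] Kvs (av j)) e = e) →
      ∃ (m : ℤ) (u : ZMod p → Pt p W k (Kvs (av j))), ∑ l, u l = 0 ∧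
        (∀ g : Gal(Kvs (av j)/(av j).Completion),
          tac (fr p W k) (hP p (1 : Kvs (av j)) (algebraMap K (av j).Completion D) g)
            (g : Kvs (av j) →ₐ[(av j).Completion] Kvs (av j)) u = u) ∧
        ∀ l, e l = m • Vn p W k (pmap (fr p W k) (ι j) Q) + Vn p W k (u l)) →
    ∀ (Λ : Type) [CommRing Λ] (π : Λ) (φ : (ZMod p → ZMod (p ^ (k + 1))) → Λ),
    IsLam p (k + 1) π φ →
    (Ker (rL (tw π (fun g => ((ψ g).val : Λ)) (hS p av α D))) (DS p av α ι)).Finite →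
    ∀ (n : ℕ) (c : Fin n → Gal(Kgs K/K) → ZMod p → ZMod (p ^ k)),
      (∀ i, SeV p W (fun σ => hP p (1 : Kgs K) D σ) k (p • Q)
        (fun σ => ((ψ (rG p av α σ)).val : ZMod (p ^ k))) (c i)) →
      (∀ i j, i ≠ j → ¬ ∃ m : ZMod p → ZMod (p ^ k), ∑ l, m l = 0 ∧
        ∀ σ l, c i σ l - c j σ l =
          ((ψ (rG p av α σ)).val : ZMod (p ^ k)) * m (l - hP p (1 : Kgs K) D σ) - m l) →
      n * p ^ ((k + 1) * (p - 1)) ≤
        p * (Ker (rL (tw π (fun g => ((ψ g).val : Λ)) (hS p av α D))) (DS p av α ι)).ncard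

/-- **Fr1V** (300 lines, uses `S_Res`, `S_Bas`, `S_Fr`, `S_Vh`, `S_It`, `S_ShgV`). From `E_1` to `E_0`. See
`W2/E/Fr1.lean`.

Proof. (1) `Fi` maps `RatV (fr p W 0) h` to `RatV (fr p W 1) h` (componentwise; naturality) and is injective.
(2) Let `T₁` be the finite set for `E_1`. For `y ∈ T₁` choose, if possible, `z_y ∈ ShaV (fr p W 0) h` such that
`Fi ∘ z_y - y = ∂P` for some vector `P`. Let `z` be `ShaV (fr p W 0) h` with `p ^ n z = ∂P`. `Fi ∘ z` is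
`ShaV (fr p W 1) h` (naturality), `p ^ n (Fi ∘ z) = ∂(Fi ∘ P)`, so `Fi ∘ z - y` is a coboundary for some `y ∈ T₁`, and
`Fi ∘ (z - z_y) = ∂P'`, `P'` a vector of points of `E_1(K^s)`. `SeF p W h 1 P'` (`Fn p W 1 q = Fi q`): `glo` with
`q = z σ - z_y σ`; `lcl`: locally `z - z_y = ∂q` over `Kvs v` and `tac .. g (ι P') - ι P' = Fi ∘ (tac .. g q - q)`
(as in `S_DscV`). Take a maximal family `P'_1, ..., P'_r` of pairwise inequivalent vectors (modulo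
`Fn p W 1` of vectors) with `SeF p W h 1` (`r ≤ N`): `P' = P'_i + Fi ∘ q` for some `i` and a vector `q`. For every `i`
choose, if possible, `x_i : Gal → ZMod p → E_0(K^s)` with `Fi ∘ x_i = ∂P'_i`. Then
`Fi ∘ (z - z_y - ∂q) = ∂P'_i = Fi ∘ x_i`, so `z = z_y + x_i + ∂q`. `T = {z_y + x_i}`. -/
def S_Fr1V : Prop :=
  ∀ (p : ℕ) [Fact p.Prime], p ≠ 2 → ∀ (K : Type) [Field K] [CharP K p]
    (W : WeierstrassCurve K), IsNf W → ∀ h : Gal(Kgs K/K) → ZMod p, HomP p h →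
    (∃ N : ℕ, ∀ (n : ℕ) (P : Fin n → ZMod p → Pt p W 1 (Kgs K)), (∀ i, SeF p W h 1 (P i)) →
      (∀ i j, i ≠ j → ¬ ∃ q : ZMod p → Pt p W 0 (Kgs K), ∑ l, q l = 0 ∧
        ∀ l, P i l - P j l = Fn p W 1 (q l)) → n ≤ N) →
    GdV (fr p W 1) h → GdV (fr p W 0) h

/-- **PsiV** (250 lines, uses `S_Bas`, `S_Fr`, `S_Vh`, `S_Vs`, `S_It`, `S_Rk`, `S_VSr`, `S_Has`, `S_Res`, `S_Onr`,
`S_Psf`). The points `Q` and the characters `ψ`.

Proof. `Q` with `Vn Q = T` exists by `S_Rk` (1). `IsQ`. For `σ ∈ Gal(K^s/K)`: `Vn (σ Q) = σ T = (ω σ).val • Vn Q`, so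
by `S_VSr` `σ Q = (ψ₀ σ).val • Q` with `ψ₀ σ ≡ ω σ` modulo `p`; `ψ₀` is unique (the order of `Q` is `p ^ (k + 1)`),
locally constant (stabilizers are open) and multiplicative. `Unr (ψ₀ - 1)`: let `v` be outside, `ι` an
embedding; for geometric `g` `ω (rsH ι g) = 1` (`rOm ι g = 1`, `S_Onr`, `S_Rgo`), so `g` fixes
`ι T = Vn (ι Q)`, and by `hUN` it fixes `ι Q`: `ι (rsH ι g Q) = ι Q`, `ψ₀ (rsH ι g) = 1`. Apply `S_Psf` with
`n = k + 1`. -/
def S_PsiV : Prop :=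
  ∀ (p : ℕ) [Fact p.Prime], p ≠ 2 → ∀ (K : Type) [Field K] [CharP K p], GFld p K →
    ∀ (W : WeierstrassCurve K), IsNf W → Od p W → ∀ (J : Type) (av : J → AbsoluteValue K ℝ)
    (α : Kgs K) (h₀ : K), HS p av α h₀ → ∀ T : Pt p W 0 (Kgs K), T ≠ 0 → p • T = 0 →
    (∀ σ : Gal(Kgs K/K), pmap (fr p W 0) (σ : Kgs K →ₐ[K] Kgs K) T = (omc p α σ).val • T) →
    ∀ k : ℕ,
    (∀ v : AbsoluteValue K ℝ, v.IsNontrivial → (∀ j, ¬ v.IsEquiv (av j)) →
      ∀ X : Pt p W k (Kvs v), (∀ g : Gal(Kvs v/v.Completion), IsGeo p g →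
        pmap (fr p W 0) (g : Kvs v →ₐ[v.Completion] Kvs v) (Vn p W k X) = Vn p W k X) →
        ∀ g : Gal(Kvs v/v.Completion), IsGeo p g →
          pmap (fr p W k) (g : Kvs v →ₐ[v.Completion] Kvs v) X = X) →
    ∃ (Q : Pt p W k (Kgs K)) (ψ : GS p av α → ZMod (p ^ (k + 1))), Vn p W k Q = T ∧
      IsQ p W k Q ∧ IsLocallyConstant ψ ∧ ψ 1 = 1 ∧ (∀ a b, ψ (a * b) = ψ a * ψ b) ∧
      (∀ a, ∃ y, ψ a = ((omS p av α a).val : ZMod (p ^ (k + 1))) + p * y) ∧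
      ∀ σ : Gal(Kgs K/K), pmap (fr p W k) (σ : Kgs K →ₐ[K] Kgs K) Q =
        (ψ (rG p av α σ)).val • Q

end Pool.Agent.MP72P
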