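import Pool.Agent.Lib.MP_72e2e6_nt.P3.E.DefsB
import Pool.Agent.Lib.MP_72e2e6_nt.P3.E.Spec
import Pool.Agent.Lib.MP_72e2e6_nt.P3.R.SpecD
import Pool.Agent.Lib.MP_72e2e6_nt.WP.Fd.Spec

/-!
# MP_72e2e6_nt, theorem T3p, part E, second part: the side of the Frobenius isogeny, the density

The proofs are complete in the docstrings; every module is independent (used statements are
hypotheses): file `P3/E/<Name>.lean` (import this file only) with `theorem t<Name> : S_<Name>` or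
`theorem t<Name> (h1 : S_X) (h2 : S_Y) .. : S_<Name>` (in the order of the docstring), namespace
`Pool.Agent.MP72P` (`open Pool.Agent.MP72V`), other declarations `private`, `open scoped Classical`.
A vector is a function on `ZMod p` with sum `0`; `a ≡ b` means `EqN (p ^ k) a b`.
-/

namespace Pool.Agent.MP72P

open WeierstrassCurve
open Pool.Agent.MP72W (pmap)
open Pool.Agent.MP72V

open scoped Classical

/-- **Uw** (120 lines). The functions on `Λ` given by elements `w i`.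

Proof. `EqN N` is an equivalence relation compatible with products on the nonzero elements. For `y ∈ Λ` choose
`z` with `φ z = y` and let `u y = ∏ i, w i ^ (z i).val`. If `φ z = φ z'` then `z - z'` is constant (`IsLam.ker`, `add`), say
`z i = z' i + c`, and `(z i).val ≡ (z' i).val + c.val` modulo `p ^ k`, so
`∏ i, w i ^ (z i).val ≡ ∏ i, w i ^ (z' i).val * (∏ i, w i) ^ c.val`. The additivity: `((z + z') i).val ≡ (z i).val + (z' i).val`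
modulo `p ^ k`. The last statement: `(1 : ZMod (p ^ k)).val = 1` as `p ^ k > 1`. -/
def S_Uw : Prop :=
  ∀ (p : ℕ) [Fact p.Prime] (k : ℕ), 1 ≤ k → ∀ (Λ : Type) [CommRing Λ] (π : Λ)
    (φ : (ZMod p → ZMod (p ^ k)) → Λ), IsLam p k π φ →
    ∀ (L : Type) [Field L] (w : ZMod p → L), (∀ i, w i ≠ 0) → EqN (p ^ k) (∏ i, w i) 1 →
    ∃ u : Λ → L, (∀ y, u y ≠ 0) ∧ (∀ z, EqN (p ^ k) (u (φ z)) (∏ i, w i ^ (z i).val)) ∧
      (∀ y y', EqN (p ^ k) (u (y + y')) (u y * u y')) ∧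
      ∀ l, EqN (p ^ k) (u (φ fun i => if i = l then 1 else 0)) (w l)

/-- **FSu** (350 lines, uses `S_Bas`, `MP72V.S_Fr`, `S_It`, `S_Wt`, `S_Wtc`, `S_Has`, `S_Hst`, `S_Rgo`, `S_Onr`, `S_Uw`). The
admissible function `u` of a vector `P`.

Proof. `h σ = hP p 1 D σ = hS D (rG σ)` (`S_Rgo`). `∏ w (P i) ≡ w (∑ P i) = w 0 ≡ 1` (`IsWt.add`, `IsWt.ker` with `q = 0`). Let
`u` be as in `S_Uw` for the `w (P i)`. (1) `AdmU.eq`: `ne`, `add` clear. `gal`: let `y = φ z`, `m = (ψ (rG σ)).val`. By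
`S_Wtc` (`f = σ`, `R' = R`, `w' = w`, `σ R = m • R`) `σ (w (P i)) ≡ w (σ (P i)) ^ m`, and by `SeF.glo`
`σ (P (i - h σ)) = P i + Fn (q i)`, so `w (σ (P i)) ≡ w (P (i + h σ))` (`w (Fn q) ≡ 1`, `IsWt.ker`, and additivity). So
`σ (u y) ≡ ∏ i, w (P (i + h σ)) ^ (m * (z i).val) = ∏ i, w (P i) ^ (m * (z (i - h σ)).val) ≡ u (φ (i ↦ m * z (i - h σ)))`, and
`φ (i ↦ m * z (i - h σ)) = m * zt π (h σ) * φ z` (`IsLam.shf`, `nsm`). (`actG` is the action; `rGo` and `rG p av α` are the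
same by definition.) (2) `AdmU.unr`: let `v`, `LF`, `ι`, `y = φ z` be given. `R' = pmap ι R` is `IsR` (`S_It`), `w'` for `R'` by
`S_Wt`. `S_Wtc` (`f = ι`, `m = 1`): `ι (w (P i)) ≡ w' (ι (P i))`. Let `q` be as in `SeF.lcl`, `X i = ι (P i) - Fn (q i)`, so
`w' (ι (P i)) ≡ w' (X i)` (`w' (Fn (q i)) ≡ 1`). For geometric `g`: `h (rsH ι g) = hS D (rOm ι g) = hS D 1 = 0` (`S_Onr`,
`S_Rgo`, `HomP`), so `g (X i) = X i`. By `HWu` `w' (X i) ≡ r i ∈ Knr`, `nm (r i) = v ϖ ^ (x i)`, `p ^ k ∣ x i`. Take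
`r = ∏ i, r i ^ (z i).val` and `x = ∑ i, (z i).val * x i` (`nm v` is multiplicative: `spectralNorm_mul`, the completion of a
nonarchimedean `v` is a complete nonarchimedean field; see how `P3/C/Lc1.lean` does this). -/
def S_FSu : Prop :=
  ∀ (p : ℕ) [Fact p.Prime], p ≠ 2 → ∀ (K : Type) [Field K] [CharP K p], GFld p K →
    ∀ (W : WeierstrassCurve K), IsNf W → ∀ (J : Type) (av : J → AbsoluteValue K ℝ)
    (α : Kgs K) (h₀ : K), HS p av α h₀ → ∀ D ∈ OS av, ∀ k : ℕ, 1 ≤ k →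
    ∀ R : Pt p W k (Kgs K), IsR p W k R → ∀ w, IsWt p W k R w →
    ∀ ψ : GS p av α → ZMod (p ^ k),
    (∀ σ : Gal(Kgs K/K), pmap (fr p W k) (σ : Kgs K →ₐ[K] Kgs K) R =
      (ψ (rG p av α σ)).val • R) → HWu p W av k →
    ∀ (Λ : Type) [CommRing Λ] (π : Λ) (φ : (ZMod p → ZMod (p ^ k)) → Λ), IsLam p k π φ →
    ∀ P : ZMod p → Pt p W k (Kgs K), SeF p W (hD p D) k P →
    ∃ u : Λ → Kgs K, AdmU p av α k (tw π (fun g => ((ψ g).val : Λ)) (hS p av α D)) u ∧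
      ∀ l, EqN (p ^ k) (u (φ fun i => if i = l then 1 else 0)) (w (P l))

/-- **FS** (200 lines, uses `S_Lrb`, `S_It`, `S_Wt`, `S_Hst`, `S_RCs`, `S_FSu`). The count on the side of the
Frobenius isogeny.

Proof. `χ = tw π ((ψ ·).val) (hS D)` is `Chr π omS`: `m ↦ (m.val : Λ)` is a ring homomorphism from `ZMod (p ^ k)` as
`p ^ k = 0` in `Λ`; `p ∈ (π)`, `zt π c ≡ 1` modulo `π`; `zt π (a + b) = zt π a * zt π b` (`(1 - π) ^ p = 1`, see `S_Lrb`);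
`hS D` is `HomP` by `S_Hst`. Let `w` be as in `S_Wt` (`K^s` is separably closed), `u i` as in `S_FSu` for `P i`. If
`u i y ≡ u j y` for all `y`, then `w (P i l) ≡ w (P j l)`, `w (P i l - P j l) ≡ 1` (additivity; `w (- X) ≡ (w X)⁻¹`), so by
`IsWt.ker` `P i l - P j l = Fn (q l)` for all `l`, and `Fn (∑ q l) = 0`, so `∑ q l = 0` (`S_It`: `Fn` is additive and
injective); hence `i = j`. So `i ↦ u i` is injective and `S_RCs` (`n = k (p - 1)`, `U = range u`) gives the claim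
(`IsLam.lr`, `IsLam.ck`). -/
def S_FS : Prop :=
  ∀ (p : ℕ) [Fact p.Prime], p ≠ 2 → ∀ (K : Type) [Field K] [CharP K p], GFld p K →
    ∀ (W : WeierstrassCurve K), IsNf W → ∀ (J : Type) (av : J → AbsoluteValue K ℝ)
    (α : Kgs K) (h₀ : K), HS p av α h₀ → ∀ (ι : ∀ j, Kgs K →ₐ[K] Kvs (av j)) (T : J → Type)
      (t : ∀ w, T w → Gal(Kvs (av w)/(av w).Completion)) (w₀ : J) (d : ℕ)
      (e : Fin d → Gal(Kvs (av w₀)/(av w₀).Completion)),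
      LTs p (omS p av α) (fun w => rOm p av α (ι w)) t w₀ e →
    ∀ y₀ : Fin (d + 1) → GS p av α ⊕ J,
      (tsL (fun w => rOm p av α (ι w)) t w₀ e y₀).Ok p (omS p av α) (DS p av α ι) →
    ∀ D ∈ OS av, ∀ k : ℕ, 1 ≤ k → ∀ R : Pt p W k (Kgs K), IsR p W k R →
    ∀ ψ : GS p av α → ZMod (p ^ k), IsLocallyConstant ψ → ψ 1 = 1 →
    (∀ a b, ψ (a * b) = ψ a * ψ b) →
    (∀ a, ∃ y, ψ a = ((omS p av α a).val : ZMod (p ^ k)) + p * y) →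
    (∀ σ : Gal(Kgs K/K), pmap (fr p W k) (σ : Kgs K →ₐ[K] Kgs K) R =
      (ψ (rG p av α σ)).val • R) → HWu p W av k →
    ∀ (Λ : Type) [CommRing Λ] (π : Λ) (φ : (ZMod p → ZMod (p ^ k)) → Λ), IsLam p k π φ →
    ∀ (n : ℕ) (P : Fin n → ZMod p → Pt p W k (Kgs K)), (∀ i, SeF p W (hD p D) k (P i)) →
      (∀ i j, i ≠ j → ¬ ∃ q : ZMod p → Pt p W 0 (Kgs K), ∑ l, q l = 0 ∧
        ∀ l, P i l - P j l = Fn p W k (q l)) →
      n * p ^ (k * (p - 1)) ≤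
        (Ker (rL (tw π (fun g => ((ψ g).val : Λ)) (hS p av α D))) (DS p av α ι)).ncard

/-- **OneV** (250 lines, uses `S_Lrb`, `S_Lin2`, `S_Res`, `S_Has`, `S_Hst`, `S_Rgo`, `S_It`, `S_VSr`, `S_DscV`, `S_VS`, `S_FS`,
`S_FshV`). The criterion for one `D`.

Proof. `h = hD D` is `HomP` (`S_Has` for `α = 1` and the field `K^s`, or `hS D ∘ rG`, `S_Rgo`). `R = p • Q` is `IsR p W k`
(`S_VSr`). Let `ψ' g = ((ψ g).val : ZMod (p ^ k))`, a character with `σ R = (ψ' (rG σ)).val • R` (the order of `R` is `p ^ k`,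
`(ψ' g).val ≡ (ψ g).val` modulo `p ^ k`); `((ψ' g).val : Λ₂) = ((ψ g).val : Λ₂)` (`p ^ k = 0` in `Λ₂`, `IsLam.ck`). The kernels are
finite by `S_Lin2` (8) (`χ` is `Chr`, see the docstring of `S_FS`; `Fin (d + 1) → Λ` is finite). `S_VS` and `S_FS` give the two
hypotheses of `S_DscV` for `a = p ^ ((k + 1) (p - 1))`, `X = p * #Ker₁`, `b = p ^ (k (p - 1))`, `Y = #Ker₂`. So the number `n` of
pairwise inequivalent pairs `ZPV` satisfies `n * (a * b) ≤ X * Y < p ^ k * (a * b)`, `n < p ^ k`. `S_FshV` and `HEn`. -/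
def S_OneV : Prop :=
  ∀ (p : ℕ) [Fact p.Prime], p ≠ 2 → ∀ (K : Type) [Field K] [CharP K p], GFld p K →
    ∀ (W : WeierstrassCurve K), IsNf W → Od p W → ∀ (J : Type) (av : J → AbsoluteValue K ℝ)
    (α : Kgs K) (h₀ : K), HS p av α h₀ → ∀ (ι : ∀ j, Kgs K →ₐ[K] Kvs (av j)) (T : J → Type)
      (t : ∀ w, T w → Gal(Kvs (av w)/(av w).Completion)) (w₀ : J) (d : ℕ)
      (e : Fin d → Gal(Kvs (av w₀)/(av w₀).Completion)),
      LTs p (omS p av α) (fun w => rOm p av α (ι w)) t w₀ e →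
    ∀ y₀ : Fin (d + 1) → GS p av α ⊕ J,
      (tsL (fun w => rOm p av α (ι w)) t w₀ e y₀).Ok p (omS p av α) (DS p av α ι) →
    ∀ D ∈ OS av, (¬ ∃ x : K, x ^ p - x = D) → ∀ k : ℕ, 1 ≤ k → ∀ Q : Pt p W k (Kgs K),
    IsQ p W k Q → ∀ ψ : GS p av α → ZMod (p ^ (k + 1)), IsLocallyConstant ψ → ψ 1 = 1 →
    (∀ a b, ψ (a * b) = ψ a * ψ b) →
    (∀ a, ∃ y, ψ a = ((omS p av α a).val : ZMod (p ^ (k + 1))) + p * y) →
    (∀ σ : Gal(Kgs K/K), pmap (fr p W k) (σ : Kgs K →ₐ[K] Kgs K) Q =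
      (ψ (rG p av α σ)).val • Q) →
    HUn p W av k → HWu p W av k →
    (∀ j, HLo p W k (av j) D (pmap (fr p W k) (ι j) Q)) → HEn p W k D →
    ∀ (Λ₁ : Type) [CommRing Λ₁] (π₁ : Λ₁) (φ₁ : (ZMod p → ZMod (p ^ (k + 1))) → Λ₁),
    IsLam p (k + 1) π₁ φ₁ →
    ∀ (Λ₂ : Type) [CommRing Λ₂] (π₂ : Λ₂) (φ₂ : (ZMod p → ZMod (p ^ k)) → Λ₂), IsLam p k π₂ φ₂ →
    p * (Ker (rL (tw π₁ (fun g => ((ψ g).val : Λ₁)) (hS p av α D))) (DS p av α ι)).ncard *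
      (Ker (rL (tw π₂ (fun g => ((ψ g).val : Λ₂)) (hS p av α D))) (DS p av α ι)).ncard <
        p ^ k * (p ^ ((k + 1) * (p - 1)) * p ^ (k * (p - 1))) →
    GdV (fr p W 0) (hD p D)

/-- **Mrk** (80 lines). Markov's inequality, and a choice of `k`.

Proof. (1) `l * C * #{..} ≤ ∑ f ≤ C * #𝒟`. (2) exponential growth of `p ^ k`, `p ≥ 2`. -/
def S_Mrk : Prop :=
  (∀ (X : Type) (𝒟 : Set X), 𝒟.Finite → ∀ f : X → ℝ, (∀ x, 0 ≤ f x) →
    ∀ C l : ℝ, 0 < C → 0 < l → ∑ᶠ D ∈ 𝒟, f D ≤ C * 𝒟.ncard →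
      ({D : X | D ∈ 𝒟 ∧ l * C ≤ f D}.ncard : ℝ) ≤ l⁻¹ * 𝒟.ncard) ∧
  ∀ (p : ℕ), p.Prime → ∀ (d : ℕ) (l : ℝ), 0 < l → ∃ k : ℕ, 1 ≤ k ∧
    p * l ^ 2 * (2 + ((k + 1) * (p - 1) : ℕ) * (p : ℝ) ^ d) * (2 + (k * (p - 1) : ℕ) * (p : ℝ) ^ d) ≤
      (p : ℝ) ^ k

/-- **Man** (300 lines, uses `S_Lrb`, `S_Lfn`, `S_ThA2`, `S_Hst`, `S_It`, `S_PsiV`, `S_Dep`, `S_Mrk`, `S_OneV`). One hundred
percent of the `D`.

Proof. `IsLam p k` exists by `S_Lfn` for every `k`. Let `l = 4 / ε` and `k` as in `S_Mrk` (2). `Q`, `ψ` by `S_PsiV` (`T = T₀`).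
`ψ₁ g = ((ψ g).val : Λ₁)` and `ψ₂ g = ((ψ g).val : Λ₂)` are `Chr π omS` (`p ^ (k + 1) = 0` in `Λ₁`, `p ^ k = 0` in `Λ₂`; `p ∈ (π)`). Let
`n₁ = (k + 1) (p - 1)`, `n₂ = k (p - 1)`. `S_ThA2` (`ε = 1`; `A = fmS ..`: `A.ω = omS`, `A.D = DS`, `A.h x = hS x`) for `Λ₁`, `ψ₁` and
for `Λ₂`, `ψ₂` gives `e₁`, `e₂`: for `𝒟 ⊇ FS e₁, FS e₂` the average of `#Ker_i(D)` is at most `C_i = p ^ n_i (2 + n_i p ^ d)`; by
`S_Mrk` (1) `#{D ∈ 𝒟 : l C_i ≤ #Ker_i(D)} ≤ (ε / 4) #𝒟`. Let `M ≥ 1` be greater than the constants of the hypothesis on `HLo`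
for `k` and `j ∈ J` (finite), `e₃` as in `S_Dep` for `M` and `ε / 4`, `e₀ = max` of the `e_i` (`FS` is monotone). If `D ∈ 𝒟` is in
none of the three sets then `GdV`: `D` is not `x ^ p - x` (`J` is not empty, take `y = x`: `0 < M`),
`M ≤ ‖D - (y ^ p - y)‖` for all `j`, `y`, so `HLo` (`pmap ι Q` is `IsQ`, `S_VSr` (4), or directly: `pmap` is injective and
commutes with `Vn`), and
`p * #Ker₁ * #Ker₂ < p * l ^ 2 * C_1 * C_2 ≤ p ^ k * p ^ n₁ * p ^ n₂` (if `#Ker₁ < l C_1`, `#Ker₂ < l C_2`, all numbers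
positive). Apply `S_OneV` (`LTs`, `Good.ok`). The three sets have together at most `(3 / 4) ε #𝒟` elements. -/
def S_Man : Prop :=
  ∀ (p : ℕ) [Fact p.Prime], p ≠ 2 → ∀ (K : Type) [Field K] [CharP K p], GFld p K →
    ∀ (W : WeierstrassCurve K), IsNf W → Od p W → ∀ (J : Type) (av : J → AbsoluteValue K ℝ)
    (α : Kgs K) (h₀ : K), HS p av α h₀ → ∀ (ι : ∀ j, Kgs K →ₐ[K] Kvs (av j)) (T : J → Type)
      (t : ∀ w, T w → Gal(Kvs (av w)/(av w).Completion)) (w₀ : J) (d : ℕ)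
      (e : Fin d → Gal(Kvs (av w₀)/(av w₀).Completion)),
      LTs p (omS p av α) (fun w => rOm p av α (ι w)) t w₀ e →
    ∀ (y₀ : Fin (d + 1) → GS p av α ⊕ J) (B N0 : AddSubgroup (OS av)),
      (fmS p av α ι B).Good (tsL (fun w => rOm p av α (ι w)) t w₀ e y₀) N0 →
    ∀ T₀ : Pt p W 0 (Kgs K), T₀ ≠ 0 → p • T₀ = 0 →
    (∀ σ : Gal(Kgs K/K), pmap (fr p W 0) (σ : Kgs K →ₐ[K] Kgs K) T₀ = (omc p α σ).val • T₀) →
    (∀ k, HUn p W av k) → (∀ k, HWu p W av k) →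
    (∀ k j, ∃ M : ℝ, ∀ D : K, (∀ y : (av j).Completion,
      M ≤ ‖algebraMap K (av j).Completion D - (y ^ p - y)‖) →
      ∀ Q : Pt p W k (Kvs (av j)), IsQ p W k Q → HLo p W k (av j) D Q) →
    (∀ k, 1 ≤ k → ∀ D ∈ OS av, (¬ ∃ x : K, x ^ p - x = D) → HEn p W k D) →
    ∀ ε : ℝ, 0 < ε → ∃ e₀ : ℕ, ∀ 𝒟 : AddSubgroup (OS av), (𝒟 : Set (OS av)).Finite →
      FS av e₀ ≤ 𝒟 →
      ({D : OS av | D ∈ 𝒟 ∧ ¬ GdV (fr p W 0) (hD p (D : K))}.ncard : ℝ) ≤ ε * Nat.card 𝒟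

end Pool.Agent.MP72P
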